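import Mathlib

/-!
Linear algebra behind the nonexistence of generalized quadrangles of order `(s, s^2 - s)`.
-/

open Matrix Finset

namespace Pool.Agent.H253_GQ

variable {V : Type*} [Fintype V] [DecidableEq V]

/-- An idempotent real matrix has a natural number as its trace. -/
theorem trace_idem_nat (R : Matrix V V ℝ) (h : R * R = R) : ∃ n : ℕ, R.trace = n := by
  have h1 : IsIdempotentElem (Matrix.toLin' R) := by
    unfold IsIdempotentElem
    rw [Module.End.mul_eq_comp, ← Matrix.toLin'_mul, h]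
  have h2 := LinearMap.IsIdempotentElem.isProj_range _ h1
  have h3 := h2.trace
  rw [Matrix.trace_toLin'_eq] at h3
  exact ⟨_, h3⟩

omit [DecidableEq V] in
/-- A real matrix `M` with `trace (Mᵀ M) = 0` vanishes. -/
theorem eq_zero_of_trace (M : Matrix V V ℝ) (h : (Mᵀ * M).trace = 0) : M = 0 := by
  have h1 : ∑ i, ∑ j, M j i * M j i = 0 := by
    simpa [Matrix.trace, Matrix.mul_apply] using h
  have h2 := (Finset.sum_eq_zero_iff_of_nonneg (fun i _ =>
    Finset.sum_nonneg (fun j _ => mul_self_nonneg (M j i)))).1 h1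
  ext j i
  have h3 := (Finset.sum_eq_zero_iff_of_nonneg (fun j _ => mul_self_nonneg (M j i))).1
    (h2 i (Finset.mem_univ i)) j (Finset.mem_univ j)
  simpa using mul_self_eq_zero.1 h3

omit [DecidableEq V] in
theorem trace_transpose_mul_self_nonneg (M : Matrix V V ℝ) : 0 ≤ (Mᵀ * M).trace := by
  have : (Mᵀ * M).trace = ∑ i, ∑ j, M j i * M j i := by
    simp [Matrix.trace, Matrix.mul_apply]
  rw [this]
  exact Finset.sum_nonneg fun i _ => Finset.sum_nonneg fun j _ => mul_self_nonneg _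

/-- The combinatorial data used: a symmetric `0/1` matrix `A` (the collinearity matrix of a
generalized quadrangle of order `(s, m - 1)`), where the last field says that for an edge `pq`
the vector `A p w * A q w + δ p w + δ q w` (the indicator of the line `pq`) meets the
neighbourhood of `z` in `1 + (s-1) [z on the line]` points. -/
structure GQMat (A : V → V → ℝ) (s m : ℝ) : Prop where
  zero_one : ∀ x y, A x y = 0 ∨ A x y = 1
  symm : ∀ x y, A x y = A y x
  diag : ∀ x, A x x = 0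
  deg : ∀ x, ∑ y, A x y = s * m
  sq : ∀ x z, ∑ y, A x y * A y z
    = m + (s - 1) * m * (1 : Matrix V V ℝ) x z + (s - 1 - m) * A x z
  line : ∀ p q, A p q = 1 → ∀ z, ∑ w, A z w * (A p w * A q w + (1 : Matrix V V ℝ) p w
      + (1 : Matrix V V ℝ) q w)
    = 1 + (s - 1) * (A p z * A q z + (1 : Matrix V V ℝ) p z + (1 : Matrix V V ℝ) q z)

theorem sum_one_mul (x : V) (f : V → ℝ) : ∑ y, (1 : Matrix V V ℝ) x y * f y = f x := by
  simp [Matrix.one_apply]

theorem sum_one_mul' (x : V) (f : V → ℝ) : ∑ y, (1 : Matrix V V ℝ) y x * f y = f x := by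
  simp [Matrix.one_apply]

theorem sum_one (x : V) : ∑ y, (1 : Matrix V V ℝ) x y = 1 := by
  simp [Matrix.one_apply]

omit [Fintype V] in
theorem one_symm (x y : V) : (1 : Matrix V V ℝ) x y = (1 : Matrix V V ℝ) y x := by
  simp [Matrix.one_apply, eq_comm]

/-- The orthogonal projection onto the eigenspace for the least eigenvalue, as a function. -/
noncomputable def Wf (A : V → V → ℝ) (s : ℝ) : Matrix V V ℝ :=
  Matrix.of fun x y => ((s - 1) * (1 : Matrix V V ℝ) x y - A x y + 1 / (s + 1)) / s ^ 2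

/-- The diagonal weights: `(s-1)^2` at `p`, `1 - s` at the neighbours of `p` and `1` elsewhere. -/
noncomputable def bf (A : V → V → ℝ) (s : ℝ) (p : V) : V → ℝ :=
  fun y => 1 - s * A p y + s * (s - 2) * (1 : Matrix V V ℝ) p y

/-- The projection onto the vectors of the eigenspace vanishing on `p` and its neighbours. -/
noncomputable def Pf (A : V → V → ℝ) (s : ℝ) (p : V) : Matrix V V ℝ :=
  Wf A s * Matrix.diagonal (bf A s p) * Wf A s

/-- The indicator of the non-neighbours. -/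
noncomputable def gf (A : V → V → ℝ) (p : V) : V → ℝ :=
  fun y => 1 - (1 : Matrix V V ℝ) p y - A p y

section
variable {A : V → V → ℝ} {s m : ℝ}

omit [Fintype V] in
theorem Wf_apply (x y : V) :
    Wf A s x y = ((s - 1) * (1 : Matrix V V ℝ) x y - A x y + 1 / (s + 1)) / s ^ 2 := rfl

theorem Wf_symm (h : GQMat A s m) (x y : V) : Wf A s x y = Wf A s y x := by
  rw [Wf_apply, Wf_apply, h.symm x y, one_symm x y]

theorem Wf_transpose (h : GQMat A s m) : (Wf A s)ᵀ = Wf A s := by
  ext x y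
  rw [Matrix.transpose_apply, Wf_symm h]

theorem Pf_apply (p y z : V) :
    Pf A s p y z = ∑ w, Wf A s y w * bf A s p w * Wf A s w z := by
  rw [Pf, Matrix.mul_apply]
  simp_rw [Matrix.mul_diagonal]

theorem Pf_transpose (h : GQMat A s m) (p : V) : (Pf A s p)ᵀ = Pf A s p := by
  simp [Pf, Matrix.transpose_mul, Wf_transpose h, Matrix.mul_assoc]

/-- The number of points. -/
theorem card_eq (h : GQMat A s m) (hs : 3 ≤ s) (hm : m = s ^ 2 - s + 1) (x : V) :
    (Fintype.card V : ℝ) = (s + 1) * (s * (m - 1) + 1) := by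
  have h1 : ∑ z, ∑ y, A x y * A y z = (s * m) * (s * m) := by
    rw [Finset.sum_comm]
    simp_rw [← Finset.mul_sum, h.deg, ← Finset.sum_mul, h.deg]
  have h2 : ∑ z, ∑ y, A x y * A y z
      = m * Fintype.card V + (s - 1) * m + (s - 1 - m) * (s * m) := by
    simp_rw [h.sq, Finset.sum_add_distrib, ← Finset.mul_sum, sum_one, h.deg]
    simp
    ring
  have hm0 : 0 < m := by nlinarith
  have h3 : m * (Fintype.card V : ℝ) = m * ((s + 1) * (s * (m - 1) + 1)) := by
    linear_combination h1 - h2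
  exact mul_left_cancel₀ hm0.ne' h3

theorem Wf_sum (h : GQMat A s m) (hs : 3 ≤ s) (hm : m = s ^ 2 - s + 1) (x : V) :
    ∑ y, Wf A s x y = 0 := by
  simp_rw [Wf_apply, ← Finset.sum_div, Finset.sum_add_distrib, Finset.sum_sub_distrib,
    ← Finset.mul_sum, sum_one, h.deg]
  simp only [Finset.sum_const, Finset.card_univ, nsmul_eq_mul]
  rw [card_eq h hs hm x]
  have h1 : s + 1 ≠ 0 := by linarith
  have h2 : s ≠ 0 := by linarith
  subst hm
  field_simp
  ring

theorem Wf_mul_A (h : GQMat A s m) (hs : 3 ≤ s) (x z : V) :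
    ∑ y, Wf A s x y * A y z = -m * Wf A s x z := by
  have h0 : ∀ y, Wf A s x y * A y z = ((s - 1) * ((1 : Matrix V V ℝ) x y * A y z)
      - A x y * A y z + 1 / (s + 1) * A z y) / s ^ 2 := by
    intro y
    rw [Wf_apply, h.symm z y]
    ring
  simp_rw [h0, ← Finset.sum_div, Finset.sum_add_distrib, Finset.sum_sub_distrib,
    ← Finset.mul_sum, sum_one_mul, h.deg, h.sq, Wf_apply]
  have h1 : s + 1 ≠ 0 := by linarith
  have h2 : s ≠ 0 := by linarith
  field_simp
  ring

theorem Wf_mul_Wf (h : GQMat A s m) (hs : 3 ≤ s) (hm : m = s ^ 2 - s + 1) :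
    Wf A s * Wf A s = Wf A s := by
  ext x z
  rw [Matrix.mul_apply]
  have h0 : ∀ y, Wf A s x y * Wf A s y z = ((s - 1) * ((1 : Matrix V V ℝ) y z * Wf A s x y)
      - Wf A s x y * A y z + 1 / (s + 1) * Wf A s x y) / s ^ 2 := by
    intro y
    rw [Wf_apply y z]
    ring
  simp_rw [h0, ← Finset.sum_div, Finset.sum_add_distrib, Finset.sum_sub_distrib,
    ← Finset.mul_sum, sum_one_mul', Wf_mul_A h hs, Wf_sum h hs hm]
  have h2 : s ≠ 0 := by linarith
  subst hm
  field_simp
  ring

/-- The line vector of an edge is annihilated by `W`. -/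
theorem Wf_line (h : GQMat A s m) (hs : 3 ≤ s) {p q : V} (hpq : A p q = 1) (z : V) :
    ∑ w, Wf A s z w * (A p w * A q w + (1 : Matrix V V ℝ) p w
      + (1 : Matrix V V ℝ) q w) = 0 := by
  have h0 : ∀ w, Wf A s z w * (A p w * A q w + (1 : Matrix V V ℝ) p w
      + (1 : Matrix V V ℝ) q w)
      = ((s - 1) * ((1 : Matrix V V ℝ) z w * (A p w * A q w + (1 : Matrix V V ℝ) p w
      + (1 : Matrix V V ℝ) q w))
      - A z w * (A p w * A q w + (1 : Matrix V V ℝ) p w
      + (1 : Matrix V V ℝ) q w)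
      + 1 / (s + 1) * (A p w * A w q + (1 : Matrix V V ℝ) p w
      + (1 : Matrix V V ℝ) q w)) / s ^ 2 := by
    intro w
    rw [Wf_apply, h.symm w q]
    ring
  have hne : p ≠ q := by
    rintro rfl
    rw [h.diag] at hpq
    norm_num at hpq
  simp_rw [h0, ← Finset.sum_div, Finset.sum_add_distrib, Finset.sum_sub_distrib,
    ← Finset.mul_sum, sum_one_mul, h.line p q hpq, Finset.sum_add_distrib, sum_one, h.sq,
    hpq, Matrix.one_apply_ne hne]
  have h1 : s + 1 ≠ 0 := by linarith
  have h2 : s ≠ 0 := by linarith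
  field_simp
  ring

/-- Adjacent or equal points: `P p` vanishes on the closed neighbourhood of `p`. -/
theorem Pf_self (h : GQMat A s m) (hs : 3 ≤ s) (hm : m = s ^ 2 - s + 1) (p z : V) :
    Pf A s p z p = 0 := by
  have h1 : s + 1 ≠ 0 := by linarith
  have h2 : s ≠ 0 := by linarith
  have key : ∀ w, Wf A s z w * bf A s p w * Wf A s w p
      = ((s ^ 2 - s - 1) * (Wf A s z w * A w p + m * ((1 : Matrix V V ℝ) w p * Wf A s z w))
        + Wf A s z w) / (s ^ 2 * (s + 1)) := by
    intro w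
    rw [Wf_apply w p, bf, h.symm p w, one_symm p w]
    by_cases hw : w = p
    · subst hw
      rw [h.diag, Matrix.one_apply_eq, hm]
      field_simp
      ring
    · rw [Matrix.one_apply_ne hw]
      rcases h.zero_one w p with h0 | h0 <;> rw [h0] <;> field_simp <;> ring
  rw [Pf_apply]
  simp_rw [key, ← Finset.sum_div, Finset.sum_add_distrib, ← Finset.mul_sum,
    Finset.sum_add_distrib, ← Finset.mul_sum, sum_one_mul', Wf_mul_A h hs, Wf_sum h hs hm]
  ring

theorem Pf_adj (h : GQMat A s m) (hs : 3 ≤ s) (hm : m = s ^ 2 - s + 1) {p q : V}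
    (hpq : A p q = 1) (z : V) : Pf A s p z q = 0 := by
  have h1 : s + 1 ≠ 0 := by linarith
  have h2 : s ≠ 0 := by linarith
  have hne : p ≠ q := by
    rintro rfl
    rw [h.diag] at hpq
    norm_num at hpq
  have key : ∀ w, Wf A s z w * bf A s p w * Wf A s w q
      = (Wf A s z w - s * (Wf A s z w * A w p + m * ((1 : Matrix V V ℝ) w p * Wf A s z w))
        - (s + 1) * (Wf A s z w * A w q + m * ((1 : Matrix V V ℝ) w q * Wf A s z w))
        + (s ^ 2 + s) * (Wf A s z w * (A p w * A q w + (1 : Matrix V V ℝ) p w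
      + (1 : Matrix V V ℝ) q w))) / (s ^ 2 * (s + 1)) := by
    intro w
    rw [Wf_apply w q, bf, h.symm w p, one_symm p w, h.symm w q, one_symm q w]
    by_cases hw : w = p
    · subst hw
      rw [h.diag, Matrix.one_apply_eq, Matrix.one_apply_ne hne, h.symm q w, hpq, hm]
      field_simp
      ring
    · rw [Matrix.one_apply_ne hw]
      by_cases hw' : w = q
      · subst hw'
        rw [h.diag, Matrix.one_apply_eq, hpq, hm]
        field_simp
        ring
      · rw [Matrix.one_apply_ne hw']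
        rcases h.zero_one p w with h0 | h0 <;> rcases h.zero_one q w with h0' | h0' <;>
          rw [h0, h0'] <;> field_simp <;> ring
  rw [Pf_apply]
  simp_rw [key, ← Finset.sum_div, Finset.sum_add_distrib, Finset.sum_sub_distrib,
    ← Finset.mul_sum, Finset.sum_add_distrib, ← Finset.mul_sum, Wf_line h hs hpq,
    sum_one_mul', Wf_mul_A h hs, Wf_sum h hs hm]
  ring

theorem Pf_symm (h : GQMat A s m) (p y z : V) : Pf A s p y z = Pf A s p z y := by
  conv_lhs => rw [← Pf_transpose h p, Matrix.transpose_apply]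

theorem gf_cases (h : GQMat A s m) (p y : V) :
    (gf A p y = 0 ∧ (y = p ∨ A p y = 1)) ∨ (gf A p y = 1 ∧ p ≠ y ∧ A p y = 0) := by
  by_cases hy : p = y
  · left
    subst hy
    simp [gf, h.diag]
  · rcases h.zero_one p y with h0 | h0
    · right
      refine ⟨?_, hy, h0⟩
      rw [gf, Matrix.one_apply_ne hy, h0]; ring
    · left
      refine ⟨?_, Or.inr h0⟩
      rw [gf, Matrix.one_apply_ne hy, h0]; ring

theorem Pf_zero_right (h : GQMat A s m) (hs : 3 ≤ s) (hm : m = s ^ 2 - s + 1) {p q : V}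
    (hq : q = p ∨ A p q = 1) (z : V) : Pf A s p z q = 0 := by
  rcases hq with rfl | hq
  · exact Pf_self h hs hm _ z
  · exact Pf_adj h hs hm hq z

theorem Pf_zero_left (h : GQMat A s m) (hs : 3 ≤ s) (hm : m = s ^ 2 - s + 1) {p q : V}
    (hq : q = p ∨ A p q = 1) (z : V) : Pf A s p q z = 0 := by
  rw [Pf_symm h, Pf_zero_right h hs hm hq]

theorem diag_mul_Pf (h : GQMat A s m) (hs : 3 ≤ s) (hm : m = s ^ 2 - s + 1) (p : V) :
    Matrix.diagonal (bf A s p) * Pf A s p = Pf A s p := by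
  ext y z
  rw [Matrix.diagonal_mul]
  rcases gf_cases h p y with ⟨_, h0⟩ | ⟨_, h0, h1⟩
  · rw [Pf_zero_left h hs hm h0]; ring
  · rw [bf, h1, Matrix.one_apply_ne h0]; ring

theorem Wf_mul_Pf (h : GQMat A s m) (hs : 3 ≤ s) (hm : m = s ^ 2 - s + 1) (p : V) :
    Wf A s * Pf A s p = Pf A s p := by
  rw [Pf, ← Matrix.mul_assoc, ← Matrix.mul_assoc, Wf_mul_Wf h hs hm]

theorem Pf_mul_Wf (h : GQMat A s m) (hs : 3 ≤ s) (hm : m = s ^ 2 - s + 1) (p : V) :
    Pf A s p * Wf A s = Pf A s p := by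
  rw [Pf, Matrix.mul_assoc, Wf_mul_Wf h hs hm]

theorem Pf_mul_Pf (h : GQMat A s m) (hs : 3 ≤ s) (hm : m = s ^ 2 - s + 1) (p : V) :
    Pf A s p * Pf A s p = Pf A s p := by
  calc Pf A s p * Pf A s p
      = Wf A s * (Matrix.diagonal (bf A s p) * (Wf A s * Pf A s p)) := by
        conv_lhs => arg 1; rw [Pf]
        simp only [Matrix.mul_assoc]
    _ = Pf A s p := by rw [Wf_mul_Pf h hs hm, diag_mul_Pf h hs hm, Wf_mul_Pf h hs hm]

theorem Pf_entry (h : GQMat A s m) (hs : 3 ≤ s) (hm : m = s ^ 2 - s + 1) {p y z : V}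
    (hy : p ≠ y) (hy' : A p y = 0) (hz : p ≠ z) (hz' : A p z = 0) :
    Pf A s p y z = Wf A s y z - s * ((1 / (s + 1) ^ 2 * (s * m) - 2 / (s + 1) * m
      + ∑ w, A p w * (A y w * A z w)) / s ^ 4)
      + s * (s - 2) * (1 / (s + 1) / s ^ 2) ^ 2 := by
  have h1 : s + 1 ≠ 0 := by linarith
  have h2 : s ≠ 0 := by linarith
  have key : ∀ w, Wf A s y w * bf A s p w * Wf A s w z
      = Wf A s y w * Wf A s w z - s * ((1 / (s + 1) ^ 2 * A p w - 1 / (s + 1) * (A p w * A w y)
        - 1 / (s + 1) * (A p w * A w z) + A p w * (A y w * A z w)) / s ^ 4)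
        + s * (s - 2) * ((1 : Matrix V V ℝ) p w * (Wf A s y w * Wf A s w z)) := by
    intro w
    rw [bf]
    have e : A p w * (Wf A s y w * Wf A s w z)
        = (1 / (s + 1) ^ 2 * A p w - 1 / (s + 1) * (A p w * A w y)
        - 1 / (s + 1) * (A p w * A w z) + A p w * (A y w * A z w)) / s ^ 4 := by
      rcases h.zero_one p w with h0 | h0
      · rw [h0]; ring
      · have hyw : y ≠ w := by
          rintro rfl
          rw [hy'] at h0
          norm_num at h0
        have hwz : w ≠ z := by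
          rintro rfl
          rw [hz'] at h0
          norm_num at h0
        rw [Wf_apply, Wf_apply, Matrix.one_apply_ne hyw, Matrix.one_apply_ne hwz, h0,
          h.symm y w, h.symm z w]
        field_simp
        ring
    rw [← e]
    ring
  rw [Pf_apply]
  simp_rw [key, Finset.sum_add_distrib, Finset.sum_sub_distrib, ← Finset.mul_sum,
    ← Finset.sum_div, Finset.sum_add_distrib, Finset.sum_sub_distrib, ← Finset.mul_sum,
    sum_one_mul, h.sq, h.deg]
  rw [← Matrix.mul_apply, Wf_mul_Wf h hs hm, hy', hz', Matrix.one_apply_ne hy,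
    Matrix.one_apply_ne hz, Wf_apply y p, Wf_apply p z, h.symm y p, hy', hz',
    Matrix.one_apply_ne hz, Matrix.one_apply_ne hy.symm]
  ring

/-- Diagonal entries. -/
theorem Pf_diag (h : GQMat A s m) (hs : 3 ≤ s) (hm : m = s ^ 2 - s + 1) (p y : V) :
    Pf A s p y y = gf A p y * ((s - 1) / s ^ 3) := by
  have h1 : s + 1 ≠ 0 := by linarith
  have h2 : s ≠ 0 := by linarith
  rcases gf_cases h p y with ⟨hg, h0⟩ | ⟨hg, hy, hy'⟩
  · rw [Pf_zero_left h hs hm h0, hg]; ring
  · rw [hg, Pf_entry h hs hm hy hy' hy hy']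
    have e : ∑ w, A p w * (A y w * A y w) = m := by
      have : ∀ w, A p w * (A y w * A y w) = A p w * A w y := by
        intro w
        rw [h.symm w y]
        rcases h.zero_one y w with h0 | h0 <;> rw [h0] <;> ring
      simp_rw [this, h.sq]
      rw [hy', Matrix.one_apply_ne hy]
      ring
    rw [e, Wf_apply, h.diag, Matrix.one_apply_eq, hm]
    field_simp
    ring

/-- Entries at adjacent pairs. -/
theorem Pf_edge (h : GQMat A s m) (hs : 3 ≤ s) (hm : m = s ^ 2 - s + 1) (p : V) {y z : V}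
    (hyz : A y z = 1) : Pf A s p y z = - (gf A p y * gf A p z / s ^ 3) := by
  have h1 : s + 1 ≠ 0 := by linarith
  have h2 : s ≠ 0 := by linarith
  rcases gf_cases h p y with ⟨hg, h0⟩ | ⟨hg, hy, hy'⟩
  · rw [Pf_zero_left h hs hm h0, hg]; ring
  rcases gf_cases h p z with ⟨hg', h0⟩ | ⟨hg', hz, hz'⟩
  · rw [Pf_zero_right h hs hm h0, hg']; ring
  have hne : y ≠ z := by
    rintro rfl
    rw [h.diag] at hyz
    norm_num at hyz
  rw [hg, hg', Pf_entry h hs hm hy hy' hz hz']
  have e : ∑ w, A p w * (A y w * A z w) = 1 := by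
    have h3 := h.line y z hyz p
    simp_rw [mul_add, Finset.sum_add_distrib] at h3
    have h4 : ∑ w, A p w * (1 : Matrix V V ℝ) y w = A p y := by
      simp_rw [mul_comm (A p _)]
      exact sum_one_mul y _
    have h5 : ∑ w, A p w * (1 : Matrix V V ℝ) z w = A p z := by
      simp_rw [mul_comm (A p _)]
      exact sum_one_mul z _
    rw [h4, h5, hy', hz', h.symm y p, hy', Matrix.one_apply_ne hy.symm,
      Matrix.one_apply_ne hz.symm] at h3
    linarith
  rw [e, Wf_apply, hyz, Matrix.one_apply_ne hne, hm]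
  field_simp
  ring

theorem Pf_Pf_Pf (h : GQMat A s m) (hs : 3 ≤ s) (hm : m = s ^ 2 - s + 1) (p x : V) :
    Pf A s p * Pf A s x * Pf A s p
      = Pf A s p * Matrix.diagonal (bf A s x) * Pf A s p := by
  calc Pf A s p * Pf A s x * Pf A s p
      = (Pf A s p * Wf A s) * Matrix.diagonal (bf A s x) * (Wf A s * Pf A s p) := by
        conv_lhs => arg 1; arg 2; rw [Pf]
        simp only [Matrix.mul_assoc]
    _ = _ := by rw [Pf_mul_Wf h hs hm, Wf_mul_Pf h hs hm]

theorem trace_Pf_Pf (h : GQMat A s m) (hs : 3 ≤ s) (hm : m = s ^ 2 - s + 1) (p x : V) :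
    (Pf A s p * Pf A s x).trace = (s - 1) / s ^ 3 * ∑ y, gf A p y * bf A s x y := by
  have h1 : (Pf A s p * Pf A s x).trace = (Pf A s p * Matrix.diagonal (bf A s x)).trace := by
    calc (Pf A s p * Pf A s x).trace = (Pf A s p * (Pf A s p * Pf A s x)).trace := by
          rw [← Matrix.mul_assoc, Pf_mul_Pf h hs hm]
      _ = (Pf A s p * Pf A s x * Pf A s p).trace := by rw [Matrix.trace_mul_comm]
      _ = (Pf A s p * (Pf A s p * Matrix.diagonal (bf A s x))).trace := by
          rw [Pf_Pf_Pf h hs hm, Matrix.trace_mul_comm]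
      _ = _ := by rw [← Matrix.mul_assoc, Pf_mul_Pf h hs hm]
  rw [h1, Matrix.trace, Finset.mul_sum]
  refine Finset.sum_congr rfl fun y _ => ?_
  rw [Matrix.diag_apply, Matrix.mul_diagonal, Pf_diag h hs hm]
  ring

theorem sum_gf_bf (h : GQMat A s m) (hs : 3 ≤ s) (hm : m = s ^ 2 - s + 1) (p x : V) :
    ∑ y, gf A p y * bf A s x y = (s - 1) ^ 2 * (s + 1)
      - (1 - s * A p x + s * (s - 2) * (1 : Matrix V V ℝ) p x)
      - (s * m - s * (m + (s - 1) * m * (1 : Matrix V V ℝ) p x + (s - 1 - m) * A p x)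
        + s * (s - 2) * A p x) := by
  have key : ∀ y, gf A p y * bf A s x y = 1 - s * A x y + s * (s - 2) * (1 : Matrix V V ℝ) x y
      - ((1 : Matrix V V ℝ) p y * bf A s x y)
      - (A p y - s * (A p y * A y x) + s * (s - 2) * ((1 : Matrix V V ℝ) x y * A p y)) := by
    intro y
    rw [gf, bf, h.symm y x]
    ring
  simp_rw [key, Finset.sum_sub_distrib, Finset.sum_add_distrib, Finset.sum_sub_distrib,
    ← Finset.mul_sum, sum_one_mul, h.deg, h.sq, sum_one]
  simp only [Finset.sum_const, Finset.card_univ, nsmul_eq_mul]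
  rw [card_eq h hs hm x, bf, h.symm x p, one_symm x p, hm]
  ring

theorem Pf_mul_adj (h : GQMat A s m) (hs : 3 ≤ s) (hm : m = s ^ 2 - s + 1) {p q : V}
    (hpq : A p q = 1) : Pf A s q * Pf A s p = 0 := by
  apply eq_zero_of_trace
  have hne : p ≠ q := by
    rintro rfl
    rw [h.diag] at hpq
    norm_num at hpq
  rw [Matrix.transpose_mul, Pf_transpose h, Pf_transpose h]
  have e : Pf A s p * Pf A s q * (Pf A s q * Pf A s p) = Pf A s p * (Pf A s q * Pf A s p) := by
    rw [Matrix.mul_assoc, ← Matrix.mul_assoc (Pf A s q), Pf_mul_Pf h hs hm]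
  rw [e, Matrix.trace_mul_comm, Matrix.mul_assoc, Pf_mul_Pf h hs hm, Matrix.trace_mul_comm,
    trace_Pf_Pf h hs hm, sum_gf_bf h hs hm, hpq, Matrix.one_apply_ne hne, hm]
  ring

theorem trace_nonadj (h : GQMat A s m) (hs : 3 ≤ s) (hm : m = s ^ 2 - s + 1) {p x : V}
    (hpx : p ≠ x) (hpx' : A p x = 0) :
    (Pf A s p * Pf A s x).trace = (s - 1) * (s ^ 2 - s - 1) / s ^ 2 := by
  have h2 : s ≠ 0 := by linarith
  rw [trace_Pf_Pf h hs hm, sum_gf_bf h hs hm, hpx', Matrix.one_apply_ne hpx, hm]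
  field_simp
  ring

/-- The column of `P p` at a point `x` not collinear with `p` is an eigenvector. -/
theorem eigen (h : GQMat A s m) (hs : 3 ≤ s) (hm : m = s ^ 2 - s + 1) {p x : V}
    (hpx : p ≠ x) (hpx' : A p x = 0) (z : V) :
    ∑ y, Pf A s p z y * bf A s x y * Pf A s p y x = ((s - 1) / s) ^ 2 * Pf A s p z x := by
  have h2 : s ≠ 0 := by linarith
  have hgx : gf A p x = 1 := by
    rw [gf, Matrix.one_apply_ne hpx, hpx']; ring
  have key : ∀ y, Pf A s p z y * bf A s x y * Pf A s p y x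
      = Pf A s p z y * Pf A s p y x + 1 / s ^ 2 * (Pf A s p z y * A y x)
        + s * (s - 2) * ((1 : Matrix V V ℝ) x y * (Pf A s p z y * Pf A s p y x)) := by
    intro y
    rw [bf, h.symm x y]
    rcases h.zero_one y x with h0 | h0
    · rw [h0]; ring
    · have e := Pf_edge h hs hm p h0
      rcases gf_cases h p y with ⟨hg, h0'⟩ | ⟨hg, _, _⟩
      · rw [Pf_zero_right h hs hm h0' z]; ring
      · rw [hgx, hg] at e
        have hne : x ≠ y := by
          rintro rfl
          rw [h.diag] at h0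
          norm_num at h0
        rw [e, h0, Matrix.one_apply_ne hne]
        field_simp
        ring
  have e1 : ∑ y, Pf A s p z y * A y x = -m * Pf A s p z x := by
    have e2 : ∀ y, Pf A s p z y = ∑ w, Pf A s p z w * Wf A s w y := by
      intro y
      rw [← Matrix.mul_apply, Pf_mul_Wf h hs hm]
    calc ∑ y, Pf A s p z y * A y x = ∑ y, ∑ w, Pf A s p z w * (Wf A s w y * A y x) := by
          refine Finset.sum_congr rfl fun y _ => ?_
          rw [e2 y, Finset.sum_mul]
          exact Finset.sum_congr rfl fun w _ => by ring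
      _ = ∑ w, Pf A s p z w * (-m * Wf A s w x) := by
          rw [Finset.sum_comm]
          refine Finset.sum_congr rfl fun w _ => ?_
          rw [← Finset.mul_sum, Wf_mul_A h hs]
      _ = -m * Pf A s p z x := by
          rw [e2 x, Finset.mul_sum]
          exact Finset.sum_congr rfl fun w _ => by ring
  simp_rw [key, Finset.sum_add_distrib, ← Finset.mul_sum, sum_one_mul, e1]
  rw [← Matrix.mul_apply, Pf_mul_Pf h hs hm, Pf_diag h hs hm p x, hgx, hm]
  field_simp
  ring

theorem bf_bf (h : GQMat A s m) (hs : 3 ≤ s) (hm : m = s ^ 2 - s + 1) (y z : V) :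
    ∑ x, bf A s x y * bf A s x z
      = (s ^ 2 * (s - 2) ^ 2 + s ^ 2 * (s - 1) * m) * (1 : Matrix V V ℝ) y z
        - s ^ 2 * (s ^ 2 - 2) * A y z + (s ^ 3 - 3 * s + 1) := by
  have key : ∀ x, bf A s x y * bf A s x z = 1 - s * A y x - s * A z x
      + s * (s - 2) * (1 : Matrix V V ℝ) y x + s * (s - 2) * (1 : Matrix V V ℝ) z x
      + s ^ 2 * (A y x * A x z) - s ^ 2 * (s - 2) * ((1 : Matrix V V ℝ) y x * A x z)
      - s ^ 2 * (s - 2) * ((1 : Matrix V V ℝ) z x * A x y)
      + s ^ 2 * (s - 2) ^ 2 * ((1 : Matrix V V ℝ) y x * (1 : Matrix V V ℝ) x z) := by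
    intro x
    rw [bf, bf, h.symm x y, h.symm x z, one_symm x y, one_symm x z]
    ring
  simp_rw [key, Finset.sum_add_distrib, Finset.sum_sub_distrib, Finset.sum_add_distrib,
    Finset.sum_sub_distrib, ← Finset.mul_sum, sum_one_mul, h.deg, h.sq, sum_one]
  simp only [Finset.sum_const, Finset.card_univ, nsmul_eq_mul]
  rw [card_eq h hs hm y, h.symm z y, hm]
  ring

theorem trace_sq (h : GQMat A s m) (hs : 3 ≤ s) (hm : m = s ^ 2 - s + 1) (p x : V) :
    ((Pf A s p * Pf A s x * Pf A s p) * (Pf A s p * Pf A s x * Pf A s p)).trace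
      = ∑ y, ∑ z, Pf A s p y z ^ 2 * (bf A s x y * bf A s x z) := by
  rw [Pf_Pf_Pf h hs hm]
  have e : Pf A s p * Matrix.diagonal (bf A s x) * Pf A s p
      * (Pf A s p * Matrix.diagonal (bf A s x) * Pf A s p)
      = (Pf A s p * Matrix.diagonal (bf A s x) * Pf A s p * Matrix.diagonal (bf A s x))
        * Pf A s p := by
    calc _ = Pf A s p * Matrix.diagonal (bf A s x) * (Pf A s p * Pf A s p)
          * Matrix.diagonal (bf A s x) * Pf A s p := by simp only [Matrix.mul_assoc]
      _ = _ := by rw [Pf_mul_Pf h hs hm]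
  have e2 : Pf A s p * (Pf A s p * Matrix.diagonal (bf A s x) * Pf A s p
      * Matrix.diagonal (bf A s x))
      = (Pf A s p * Matrix.diagonal (bf A s x)) * (Pf A s p * Matrix.diagonal (bf A s x)) := by
    calc _ = (Pf A s p * Pf A s p) * Matrix.diagonal (bf A s x) * Pf A s p
          * Matrix.diagonal (bf A s x) := by simp only [Matrix.mul_assoc]
      _ = _ := by rw [Pf_mul_Pf h hs hm]; simp only [Matrix.mul_assoc]
  rw [e, Matrix.trace_mul_comm, e2, Matrix.trace]
  refine Finset.sum_congr rfl fun y _ => ?_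
  rw [Matrix.diag_apply, Matrix.mul_apply]
  refine Finset.sum_congr rfl fun z _ => ?_
  rw [Matrix.mul_diagonal, Matrix.mul_diagonal, Pf_symm h p z y]
  ring

theorem sum_gf (h : GQMat A s m) (hs : 3 ≤ s) (hm : m = s ^ 2 - s + 1) (p : V) :
    ∑ y, gf A p y = s ^ 3 * (s - 1) := by
  simp_rw [gf, Finset.sum_sub_distrib, sum_one, h.deg]
  simp only [Finset.sum_const, Finset.card_univ, nsmul_eq_mul]
  rw [card_eq h hs hm p, hm]
  ring

theorem trace_Pf (h : GQMat A s m) (hs : 3 ≤ s) (hm : m = s ^ 2 - s + 1) (p : V) :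
    (Pf A s p).trace = (s - 1) ^ 2 := by
  have h2 : s ≠ 0 := by linarith
  rw [Matrix.trace]
  simp_rw [Matrix.diag_apply, Pf_diag h hs hm, ← Finset.sum_mul, sum_gf h hs hm]
  field_simp

theorem sum_sq (h : GQMat A s m) (hs : 3 ≤ s) (hm : m = s ^ 2 - s + 1) (p : V) :
    ∑ y, ∑ z, Pf A s p y z ^ 2 = (s - 1) ^ 2 := by
  rw [← trace_Pf h hs hm p]
  conv_rhs => rw [← Pf_mul_Pf h hs hm p]
  rw [Matrix.trace]
  refine Finset.sum_congr rfl fun y _ => ?_
  rw [Matrix.diag_apply, Matrix.mul_apply]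
  refine Finset.sum_congr rfl fun z _ => ?_
  rw [Pf_symm h p z y]
  ring

theorem sum_sq_diag (h : GQMat A s m) (hs : 3 ≤ s) (hm : m = s ^ 2 - s + 1) (p : V) :
    ∑ y, ∑ z, Pf A s p y z ^ 2 * (1 : Matrix V V ℝ) y z = (s - 1) ^ 3 / s ^ 3 := by
  have h2 : s ≠ 0 := by linarith
  have key : ∀ y, ∑ z, Pf A s p y z ^ 2 * (1 : Matrix V V ℝ) y z
      = gf A p y * ((s - 1) / s ^ 3) ^ 2 := by
    intro y
    simp_rw [mul_comm (Pf A s p y _ ^ 2), sum_one_mul, Pf_diag h hs hm]
    rcases gf_cases h p y with ⟨hg, _⟩ | ⟨hg, _, _⟩ <;> rw [hg] <;> ring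
  simp_rw [key, ← Finset.sum_mul, sum_gf h hs hm]
  field_simp

theorem sum_sq_adj (h : GQMat A s m) (hs : 3 ≤ s) (hm : m = s ^ 2 - s + 1) (p : V) :
    ∑ y, ∑ z, Pf A s p y z ^ 2 * A y z = (s - 1) ^ 2 * m / s ^ 3 := by
  have h2 : s ≠ 0 := by linarith
  have key : ∀ y, ∑ z, Pf A s p y z ^ 2 * A y z = gf A p y * ((s - 1) * m / s ^ 6) := by
    intro y
    have e : ∀ z, Pf A s p y z ^ 2 * A y z
        = gf A p y * (A y z - (1 : Matrix V V ℝ) p z * A y z - A y z * A z p) / s ^ 6 := by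
      intro z
      rcases h.zero_one y z with h0 | h0
      · rw [h0]; ring
      · rw [Pf_edge h hs hm p h0, h0, h.symm z p]
        have e3 : (gf A p z) ^ 2 = 1 - (1 : Matrix V V ℝ) p z - A p z := by
          rw [← gf]
          rcases gf_cases h p z with ⟨hg, _⟩ | ⟨hg, _, _⟩ <;> rw [hg] <;> ring
        have e4 : (gf A p y) ^ 2 = gf A p y := by
          rcases gf_cases h p y with ⟨hg, _⟩ | ⟨hg, _, _⟩ <;> rw [hg] <;> ring
        calc _ = (gf A p y) ^ 2 * (gf A p z) ^ 2 / s ^ 6 := by ring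
          _ = _ := by rw [e3, e4]; ring
    simp_rw [e, ← Finset.sum_div, ← Finset.mul_sum, Finset.sum_sub_distrib, sum_one_mul,
      h.deg, h.sq]
    rcases gf_cases h p y with ⟨hg, _⟩ | ⟨hg, hy, hy'⟩
    · rw [hg]; ring
    · rw [hg, h.symm y p, hy', Matrix.one_apply_ne hy.symm]
      ring
  simp_rw [key, ← Finset.sum_mul, sum_gf h hs hm]
  field_simp

/-- The sum over all points `x` of `trace ((P p * P x) ^ 2)`. -/
theorem sum_trace_sq (h : GQMat A s m) (hs : 3 ≤ s) (hm : m = s ^ 2 - s + 1) (p : V) :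
    ∑ x, ((Pf A s p * Pf A s x * Pf A s p) * (Pf A s p * Pf A s x * Pf A s p)).trace
      = (s - 1) ^ 3 * (s ^ 3 - 3 * s + 1) / s := by
  have h2 : s ≠ 0 := by linarith
  simp_rw [trace_sq h hs hm]
  rw [Finset.sum_comm]
  have key : ∀ y, ∑ x, ∑ z, Pf A s p y z ^ 2 * (bf A s x y * bf A s x z)
      = (s ^ 2 * (s - 2) ^ 2 + s ^ 2 * (s - 1) * m)
          * ∑ z, Pf A s p y z ^ 2 * (1 : Matrix V V ℝ) y z
        - s ^ 2 * (s ^ 2 - 2) * ∑ z, Pf A s p y z ^ 2 * A y z
        + (s ^ 3 - 3 * s + 1) * ∑ z, Pf A s p y z ^ 2 := by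
    intro y
    rw [Finset.sum_comm]
    simp_rw [← Finset.mul_sum, bf_bf h hs hm]
    rw [Finset.mul_sum, Finset.mul_sum, Finset.mul_sum, ← Finset.sum_sub_distrib,
      ← Finset.sum_add_distrib]
    exact Finset.sum_congr rfl fun z _ => by ring
  simp_rw [key, Finset.sum_add_distrib, Finset.sum_sub_distrib, ← Finset.mul_sum,
    sum_sq_diag h hs hm, sum_sq_adj h hs hm, sum_sq h hs hm]
  rw [hm]
  field_simp
  ring

theorem sum_trace (h : GQMat A s m) (hs : 3 ≤ s) (hm : m = s ^ 2 - s + 1) (p : V) :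
    ∑ x, (Pf A s p * Pf A s x).trace = (s - 1) ^ 4 * (s + 1) := by
  have h2 : s ≠ 0 := by linarith
  simp_rw [trace_Pf_Pf h hs hm, ← Finset.mul_sum]
  rw [Finset.sum_comm]
  have key : ∀ y, ∑ x, gf A p y * bf A s x y = gf A p y * ((s - 1) ^ 2 * (s + 1)) := by
    intro y
    rw [← Finset.mul_sum]
    congr 1
    have e : ∀ x, bf A s x y = 1 - s * A y x + s * (s - 2) * (1 : Matrix V V ℝ) y x := by
      intro x
      rw [bf, h.symm x y, one_symm x y]
    simp_rw [e, Finset.sum_add_distrib, Finset.sum_sub_distrib, ← Finset.mul_sum, sum_one, h.deg]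
    simp only [Finset.sum_const, Finset.card_univ, nsmul_eq_mul]
    rw [card_eq h hs hm p, hm]
    ring
  simp_rw [key, ← Finset.sum_mul, sum_gf h hs hm]
  field_simp

omit [DecidableEq V] in
/-- Abstract step: `P`, `X` symmetric idempotents, `U` a multiple of a rank one projection below
`P` which is an eigenvector of compression.  Then `R = P X P - (l/v) U` satisfies
`trace R - trace (R R) ≥ 0`, with equality only if `R` is idempotent. -/
theorem abstract_step (P X U : Matrix V V ℝ) (l v : ℝ) (hv : v ≠ 0)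
    (hP : P * P = P) (hPt : Pᵀ = P) (hX : X * X = X) (hXt : Xᵀ = X)
    (hUt : Uᵀ = U) (hPU : P * U = U) (hUU : U * U = v • U) (hZU : P * X * P * U = l • U)
    (hUtr : U.trace = v) :
    0 ≤ (P * X).trace - ((P * X * P) * (P * X * P)).trace - (l - l ^ 2) ∧
    ((P * X).trace - ((P * X * P) * (P * X * P)).trace - (l - l ^ 2) = 0 →
      ∃ R : Matrix V V ℝ, R * R = R ∧ R.trace = (P * X).trace - l) := by
  have hUP : U * P = U := by
    have := congrArg Matrix.transpose hPU
    rwa [Matrix.transpose_mul, hUt, hPt] at this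
  have hUZ : U * (P * X * P) = l • U := by
    have := congrArg Matrix.transpose hZU
    simpa [Matrix.transpose_mul, hUt, hPt, hXt, Matrix.mul_assoc] using this
  have hPXU : P * X * U = l • U := by
    rw [← hZU, Matrix.mul_assoc (P * X) P U, hPU]
  have hUXP : U * X * P = l • U := by
    rw [← hUZ, ← Matrix.mul_assoc, ← Matrix.mul_assoc, hUP]
  have hUXU : U * X * U = (l * v) • U := by
    calc U * X * U = U * P * X * U := by rw [hUP]
      _ = U * (P * X * U) := by simp only [Matrix.mul_assoc]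
      _ = (l * v) • U := by rw [hPXU, Matrix.mul_smul, hUU, smul_smul]
  set Q : Matrix V V ℝ := P - v⁻¹ • U with hQ
  set R : Matrix V V ℝ := P * X * P - (l / v) • U with hR
  set Y : Matrix V V ℝ := X * Q with hY
  have hQt : Qᵀ = Q := by
    rw [hQ, Matrix.transpose_sub, Matrix.transpose_smul, hPt, hUt]
  have hQQ : Q * Q = Q := by
    rw [hQ, Matrix.sub_mul, Matrix.mul_sub, Matrix.mul_sub, hP, Matrix.mul_smul, hPU,
      Matrix.smul_mul, Matrix.smul_mul, hUP, Matrix.mul_smul, hUU]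
    have : v⁻¹ • v⁻¹ • v • U = v⁻¹ • U := by
      rw [smul_smul, smul_smul]
      congr 1
      field_simp
    rw [this]
    abel
  have hQXQ : Q * X * Q = R := by
    rw [hQ, hR, Matrix.sub_mul, Matrix.sub_mul, Matrix.mul_sub, Matrix.mul_sub,
      Matrix.smul_mul, Matrix.smul_mul, Matrix.smul_mul, hUXP, Matrix.mul_smul, Matrix.mul_smul,
      hPXU, hUXU, smul_smul, smul_smul, smul_smul]
    have : (v⁻¹ * v⁻¹ * (l * v)) • U = (v⁻¹ * l) • U := by
      congr 1
      field_simp
    rw [this]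
    have h2 : (l / v) • U = (v⁻¹ * l) • U := by
      congr 1
      field_simp
    rw [h2]
    abel
  have hRt : Rᵀ = R := by
    rw [← hQXQ, Matrix.transpose_mul, Matrix.transpose_mul, hQt, hXt, Matrix.mul_assoc]
  have hQR : Q * R = R := by
    rw [← hQXQ, ← Matrix.mul_assoc, ← Matrix.mul_assoc, hQQ]
  have hRQ : R * Q = R := by
    rw [← hQXQ, Matrix.mul_assoc, hQQ]
  have hYY : Yᵀ * Y = R := by
    rw [hY, Matrix.transpose_mul, hXt, hQt]
    calc Q * X * (X * Q) = Q * (X * X) * Q := by simp only [Matrix.mul_assoc]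
      _ = R := by rw [hX, hQXQ]
  have hYR : Yᵀ * R = R * R := by
    rw [hY, Matrix.transpose_mul, hXt, hQt]
    calc Q * X * R = Q * X * (Q * R) := by rw [hQR]
      _ = Q * X * Q * R := by simp only [Matrix.mul_assoc]
      _ = R * R := by rw [hQXQ]
  have hRY : Rᵀ * Y = R * R := by
    rw [hRt, hY]
    calc R * (X * Q) = (R * Q) * (X * Q) := by rw [hRQ]
      _ = R * (Q * X * Q) := by simp only [Matrix.mul_assoc]
      _ = R * R := by rw [hQXQ]
  have hmain : (Y - R)ᵀ * (Y - R) = R - R * R := by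
    have e : (Y - R)ᵀ * (Y - R) = Yᵀ * Y - Yᵀ * R - (Rᵀ * Y - Rᵀ * R) := by
      rw [Matrix.transpose_sub, Matrix.sub_mul]
      congr 1
      · exact Matrix.mul_sub _ _ _
      · exact Matrix.mul_sub _ _ _
    rw [e, hYY, hYR, hRY, hRt]
    abel
  have htrZ : (P * X * P).trace = (P * X).trace := by
    rw [Matrix.trace_mul_comm, ← Matrix.mul_assoc, hP]
  have htrR : R.trace = (P * X).trace - l := by
    rw [hR, Matrix.trace_sub, Matrix.trace_smul, hUtr, htrZ, smul_eq_mul]
    field_simp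
  have hRR : R * R = (P * X * P) * (P * X * P) - (l ^ 2 / v) • U := by
    rw [hR, Matrix.sub_mul, Matrix.mul_sub, Matrix.mul_sub, Matrix.mul_smul, hZU,
      Matrix.smul_mul, hUZ, Matrix.smul_mul, Matrix.mul_smul, hUU, smul_smul, smul_smul,
      smul_smul]
    have h1 : (l / v * (l / v) * v) • U = (l ^ 2 / v) • U := by
      congr 1
      field_simp
    have h2 : (l / v * l) • U = (l ^ 2 / v) • U := by
      congr 1
      ring
    rw [h1, h2]
    abel
  have htrRR : (R * R).trace = ((P * X * P) * (P * X * P)).trace - l ^ 2 := by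
    rw [hRR, Matrix.trace_sub, Matrix.trace_smul, hUtr, smul_eq_mul]
    field_simp
  have hval : ((Y - R)ᵀ * (Y - R)).trace
      = (P * X).trace - ((P * X * P) * (P * X * P)).trace - (l - l ^ 2) := by
    rw [hmain, Matrix.trace_sub, htrR, htrRR]
    ring
  refine ⟨?_, fun h0 => ?_⟩
  · rw [← hval]
    exact trace_transpose_mul_self_nonneg _
  · rw [← hval] at h0
    have h1 := eq_zero_of_trace _ h0
    refine ⟨R, ?_, htrR⟩
    rw [h1] at hmain
    simp only [Matrix.transpose_zero, Matrix.zero_mul] at hmain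
    exact (sub_eq_zero.1 hmain.symm).symm

theorem step (h : GQMat A s m) (hs : 3 ≤ s) (hm : m = s ^ 2 - s + 1) {p x : V}
    (hpx : p ≠ x) (hpx' : A p x = 0) :
    0 ≤ (Pf A s p * Pf A s x).trace
      - ((Pf A s p * Pf A s x * Pf A s p) * (Pf A s p * Pf A s x * Pf A s p)).trace
      - (((s - 1) / s) ^ 2 - (((s - 1) / s) ^ 2) ^ 2) ∧
    ((Pf A s p * Pf A s x).trace
      - ((Pf A s p * Pf A s x * Pf A s p) * (Pf A s p * Pf A s x * Pf A s p)).trace
      - (((s - 1) / s) ^ 2 - (((s - 1) / s) ^ 2) ^ 2) = 0 →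
      ∃ R : Matrix V V ℝ, R * R = R ∧
        R.trace = (Pf A s p * Pf A s x).trace - ((s - 1) / s) ^ 2) := by
  have hgx : gf A p x = 1 := by
    rw [gf, Matrix.one_apply_ne hpx, hpx']; ring
  have hs0 : s ≠ 0 := by linarith
  have hs1 : s - 1 ≠ 0 := by linarith
  have hxx : ∑ w, Pf A s p w x * Pf A s p w x = (s - 1) / s ^ 3 := by
    have e : ∑ w, Pf A s p w x * Pf A s p w x = ∑ w, Pf A s p x w * Pf A s p w x :=
      Finset.sum_congr rfl fun w _ => by rw [Pf_symm h p x w]
    rw [e, ← Matrix.mul_apply, Pf_mul_Pf h hs hm, Pf_diag h hs hm, hgx, one_mul]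
  refine abstract_step (Pf A s p) (Pf A s x)
    (Matrix.of fun y z => Pf A s p y x * Pf A s p z x) (((s - 1) / s) ^ 2) ((s - 1) / s ^ 3)
    (by positivity) (Pf_mul_Pf h hs hm p) (Pf_transpose h p) (Pf_mul_Pf h hs hm x)
    (Pf_transpose h x) ?_ ?_ ?_ ?_ ?_
  · ext y z
    simp only [Matrix.transpose_apply, Matrix.of_apply]
    ring
  · ext y z
    rw [Matrix.mul_apply]
    simp only [Matrix.of_apply]
    simp_rw [← mul_assoc, ← Finset.sum_mul]
    rw [← Matrix.mul_apply, Pf_mul_Pf h hs hm]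
  · ext y z
    rw [Matrix.mul_apply, Matrix.smul_apply, smul_eq_mul, ← hxx, Finset.sum_mul]
    refine Finset.sum_congr rfl fun w _ => ?_
    simp only [Matrix.of_apply]
    ring
  · rw [Pf_Pf_Pf h hs hm, Matrix.mul_assoc]
    have e : Pf A s p * (Matrix.of fun y z => Pf A s p y x * Pf A s p z x)
        = Matrix.of fun y z => Pf A s p y x * Pf A s p z x := by
      ext y z
      rw [Matrix.mul_apply]
      simp only [Matrix.of_apply]
      simp_rw [← mul_assoc, ← Finset.sum_mul]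
      rw [← Matrix.mul_apply, Pf_mul_Pf h hs hm]
    rw [e]
    ext y z
    rw [Matrix.mul_apply, Matrix.smul_apply, smul_eq_mul]
    simp only [Matrix.of_apply, Matrix.mul_diagonal]
    rw [← mul_assoc, ← eigen h hs hm hpx hpx' y, Finset.sum_mul]
    exact Finset.sum_congr rfl fun w _ => by ring
  · rw [Matrix.trace, ← hxx]
    rfl

/-- There is no such matrix when `m = s^2 - s + 1` and `s ≥ 3` is an integer. -/
theorem no_GQMat [Nonempty V] (n : ℕ) (hn : 3 ≤ n) (A : V → V → ℝ)
    (h : GQMat A (n : ℝ) ((n : ℝ) ^ 2 - n + 1)) : False := by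
  set s : ℝ := (n : ℝ) with hsdef
  have hs : 3 ≤ s := by
    rw [hsdef]
    exact_mod_cast hn
  have hs0 : s ≠ 0 := by linarith
  set m : ℝ := s ^ 2 - s + 1 with hm
  obtain ⟨p⟩ := (inferInstance : Nonempty V)
  set l : ℝ := ((s - 1) / s) ^ 2 with hl
  set E : V → ℝ := fun x => (Pf A s p * Pf A s x).trace
      - ((Pf A s p * Pf A s x * Pf A s p) * (Pf A s p * Pf A s x * Pf A s p)).trace
      - gf A p x * (l - l ^ 2) with hE
  have hE0 : ∀ x ∈ Finset.univ, 0 ≤ E x := by
    intro x _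
    rcases gf_cases h p x with ⟨hg, h0⟩ | ⟨hg, h0, h1⟩
    · rcases h0 with rfl | h0
      · simp only [hE, hg]
        rw [Pf_mul_Pf h hs hm, Pf_mul_Pf h hs hm, Pf_mul_Pf h hs hm]
        simp
      · simp only [hE, hg]
        rw [Pf_mul_adj h hs hm (by rw [h.symm]; exact h0)]
        simp
    · simp only [hE, hg]
      have := (step h hs hm h0 h1).1
      rw [one_mul]
      exact this
  have hsum : ∑ x, E x = 0 := by
    simp only [hE]
    rw [Finset.sum_sub_distrib, Finset.sum_sub_distrib, ← Finset.sum_mul, sum_trace h hs hm,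
      sum_trace_sq h hs hm, sum_gf h hs hm, hl]
    field_simp
    ring
  have hall := (Finset.sum_eq_zero_iff_of_nonneg hE0).1 hsum
  have hex : ∃ x, gf A p x ≠ 0 := by
    by_contra hcon
    push Not at hcon
    have h1 := sum_gf h hs hm p
    simp_rw [hcon] at h1
    simp only [Finset.sum_const_zero] at h1
    have h2 : 0 < s ^ 3 * (s - 1) := by
      apply mul_pos
      · positivity
      · linarith
    linarith
  obtain ⟨x, hx⟩ := hex
  rcases gf_cases h p x with ⟨hg, _⟩ | ⟨hg, h0, h1⟩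
  · exact hx hg
  have hEx := hall x (Finset.mem_univ x)
  simp only [hE, hg] at hEx
  rw [one_mul] at hEx
  obtain ⟨R, hRR, hRtr⟩ := (step h hs hm h0 h1).2 hEx
  obtain ⟨k, hk⟩ := trace_idem_nat R hRR
  rw [hk, trace_nonadj h hs hm h0 h1] at hRtr
  have h3 : (k : ℝ) * s = (s - 1) * (s - 2) := by
    rw [hRtr]
    field_simp
    ring
  have h4 : (k : ℤ) * n = (n - 1) * (n - 2) := by
    rw [hsdef] at h3
    exact_mod_cast h3
  have h5 : (n : ℤ) ∣ 2 := by
    refine ⟨k - n + 3, ?_⟩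
    linarith
  have h6 := Int.le_of_dvd (by norm_num) h5
  omega

end

end Pool.Agent.H253_GQ
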