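import Mathlib
import Pool.Agent.H253_GQ.Core

/-!
Linear algebra behind the nonexistence of generalized quadrangles of order `(4, 11)`.
The collinearity matrix is `A`, with `GQMat A 4 12`.
-/

open Matrix Finset

namespace Pool.Agent.H253_GQ.Eleven

open Pool.Agent.H253_GQ

variable {V : Type*} [Fintype V] [DecidableEq V]

/-- The orthogonal projection onto the eigenspace for the least eigenvalue `-12`. -/
noncomputable def W (A : V → V → ℝ) : Matrix V V ℝ :=
  Matrix.of fun x y => (3 * (1 : Matrix V V ℝ) x y - A x y + 1 / 5) / 15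

/-- The diagonal weights. -/
noncomputable def b (A : V → V → ℝ) (p : V) : V → ℝ :=
  fun y => 1 - 15 / 4 * A p y + 105 / 16 * (1 : Matrix V V ℝ) p y

/-- The projection onto the vectors of the eigenspace vanishing on `p` and its neighbours. -/
noncomputable def P (A : V → V → ℝ) (p : V) : Matrix V V ℝ :=
  W A * Matrix.diagonal (b A p) * W A

/-- The line vector of an edge. -/
noncomputable def e (A : V → V → ℝ) (p q : V) : V → ℝ :=
  fun w => A p w * A q w + (1 : Matrix V V ℝ) p w + (1 : Matrix V V ℝ) q w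

section
variable {A : V → V → ℝ}

omit [Fintype V] in
theorem W_apply (x y : V) :
    W A x y = (3 * (1 : Matrix V V ℝ) x y - A x y + 1 / 5) / 15 := rfl

theorem W_symm (h : GQMat A 4 12) (x y : V) : W A x y = W A y x := by
  rw [W_apply, W_apply, h.symm x y, one_symm x y]

theorem W_transpose (h : GQMat A 4 12) : (W A)ᵀ = W A := by
  ext x y
  rw [Matrix.transpose_apply, W_symm h]

theorem P_apply (p y z : V) :
    P A p y z = ∑ w, W A y w * b A p w * W A w z := by
  rw [P, Matrix.mul_apply]
  simp_rw [Matrix.mul_diagonal]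

theorem P_transpose (h : GQMat A 4 12) (p : V) : (P A p)ᵀ = P A p := by
  simp [P, Matrix.transpose_mul, W_transpose h, Matrix.mul_assoc]

theorem P_symm (h : GQMat A 4 12) (p y z : V) : P A p y z = P A p z y := by
  conv_lhs => rw [← P_transpose h p, Matrix.transpose_apply]

/-- The number of points. -/
theorem card_eq (h : GQMat A 4 12) (x : V) : (Fintype.card V : ℝ) = 225 := by
  have h1 : ∑ z, ∑ y, A x y * A y z = (4 * 12) * (4 * 12) := by
    rw [Finset.sum_comm]
    simp_rw [← Finset.mul_sum, h.deg, ← Finset.sum_mul, h.deg]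
  have h2 : ∑ z, ∑ y, A x y * A y z
      = 12 * Fintype.card V + (4 - 1) * 12 + (4 - 1 - 12) * (4 * 12) := by
    simp_rw [h.sq, Finset.sum_add_distrib, ← Finset.mul_sum, sum_one, h.deg]
    simp
    ring
  linarith

theorem W_sum (h : GQMat A 4 12) (x : V) : ∑ y, W A x y = 0 := by
  simp_rw [W_apply, ← Finset.sum_div, Finset.sum_add_distrib, Finset.sum_sub_distrib,
    ← Finset.mul_sum, sum_one, h.deg]
  simp only [Finset.sum_const, Finset.card_univ, nsmul_eq_mul]
  rw [card_eq h x]
  norm_num

theorem W_mul_A (h : GQMat A 4 12) (x z : V) :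
    ∑ y, W A x y * A y z = -12 * W A x z := by
  have h0 : ∀ y, W A x y * A y z = (3 * ((1 : Matrix V V ℝ) x y * A y z)
      - A x y * A y z + 1 / 5 * A z y) / 15 := by
    intro y
    rw [W_apply, h.symm z y]
    ring
  simp_rw [h0, ← Finset.sum_div, Finset.sum_add_distrib, Finset.sum_sub_distrib,
    ← Finset.mul_sum, sum_one_mul, h.deg, h.sq, W_apply]
  ring

theorem W_mul_W (h : GQMat A 4 12) : W A * W A = W A := by
  ext x z
  rw [Matrix.mul_apply]
  have h0 : ∀ y, W A x y * W A y z = (3 * ((1 : Matrix V V ℝ) y z * W A x y)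
      - W A x y * A y z + 1 / 5 * W A x y) / 15 := by
    intro y
    rw [W_apply y z]
    ring
  simp_rw [h0, ← Finset.sum_div, Finset.sum_add_distrib, Finset.sum_sub_distrib,
    ← Finset.mul_sum, sum_one_mul', W_mul_A h, W_sum h]
  ring

theorem ne_of_adj (h : GQMat A 4 12) {p q : V} (hpq : A p q = 1) : p ≠ q := by
  rintro rfl
  rw [h.diag] at hpq
  norm_num at hpq

theorem e_zero_one (h : GQMat A 4 12) {p q : V} (hpq : A p q = 1) (w : V) :
    e A p q w = 0 ∨ e A p q w = 1 := by
  have hne := ne_of_adj h hpq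
  unfold e
  by_cases h1 : p = w
  · subst h1
    right
    rw [h.diag, Matrix.one_apply_eq, Matrix.one_apply_ne hne.symm]; ring
  · by_cases h2 : q = w
    · subst h2
      right
      rw [h.diag, Matrix.one_apply_eq, Matrix.one_apply_ne hne]; ring
    · rw [Matrix.one_apply_ne h1, Matrix.one_apply_ne h2]
      rcases h.zero_one p w with h3 | h3
      · left; rw [h3]; ring
      · rcases h.zero_one q w with h4 | h4
        · left; rw [h4]; ring
        · right; rw [h3, h4]; ring

theorem e_left (h : GQMat A 4 12) {p q : V} (hpq : A p q = 1) : e A p q p = 1 := by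
  rw [e, h.diag, Matrix.one_apply_eq, Matrix.one_apply_ne (ne_of_adj h hpq).symm]; ring

theorem e_right (h : GQMat A 4 12) {p q : V} (hpq : A p q = 1) : e A p q q = 1 := by
  rw [e, h.diag, Matrix.one_apply_eq, Matrix.one_apply_ne (ne_of_adj h hpq)]; ring

theorem e_sum (h : GQMat A 4 12) {p q : V} (hpq : A p q = 1) : ∑ w, e A p q w = 5 := by
  unfold e
  have h0 : ∀ w, A p w * A q w = A p w * A w q := fun w => by rw [h.symm w q]
  simp_rw [h0, Finset.sum_add_distrib, sum_one, h.sq, hpq,
    Matrix.one_apply_ne (ne_of_adj h hpq)]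
  norm_num

theorem e_line (h : GQMat A 4 12) {p q : V} (hpq : A p q = 1) (z : V) :
    ∑ w, A z w * e A p q w = 1 + 3 * e A p q z := by
  have := h.line p q hpq z
  unfold e
  rw [this]
  ring

theorem e_clique (h : GQMat A 4 12) {p q : V} (hpq : A p q = 1) {y : V} (hy : e A p q y = 1)
    (z : V) : A y z * e A p q z = e A p q z - (1 : Matrix V V ℝ) y z := by
  have hnn : ∀ w ∈ Finset.univ, 0 ≤ e A p q w - (1 : Matrix V V ℝ) y w - A y w * e A p q w := by
    intro w _
    by_cases hw : y = w
    · subst hw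
      rw [hy, Matrix.one_apply_eq, h.diag]; norm_num
    · rw [Matrix.one_apply_ne hw]
      rcases h.zero_one y w with h0 | h0 <;> rcases e_zero_one h hpq w with h1 | h1 <;>
        rw [h0, h1] <;> norm_num
  have hsum : ∑ w, (e A p q w - (1 : Matrix V V ℝ) y w - A y w * e A p q w) = 0 := by
    simp_rw [Finset.sum_sub_distrib, e_sum h hpq, sum_one, e_line h hpq, hy]
    norm_num
  have := (Finset.sum_eq_zero_iff_of_nonneg hnn).1 hsum z (Finset.mem_univ z)
  linarith

/-- The line vector of an edge is annihilated by `W`. -/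
theorem W_line (h : GQMat A 4 12) {p q : V} (hpq : A p q = 1) (z : V) :
    ∑ w, W A z w * e A p q w = 0 := by
  have h0 : ∀ w, W A z w * e A p q w
      = (3 * ((1 : Matrix V V ℝ) z w * e A p q w)
      - A z w * e A p q w + 1 / 5 * e A p q w) / 15 := by
    intro w
    rw [W_apply]
    ring
  simp_rw [h0, ← Finset.sum_div, Finset.sum_add_distrib, Finset.sum_sub_distrib,
    ← Finset.mul_sum, sum_one_mul, e_line h hpq, e_sum h hpq]
  ring

theorem P_self (h : GQMat A 4 12) (p z : V) : P A p z p = 0 := by
  have key : ∀ w, W A z w * b A p w * W A w p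
      = (10 * (W A z w * A w p + 12 * ((1 : Matrix V V ℝ) w p * W A z w)) + W A z w) / 75 := by
    intro w
    rw [W_apply w p, b, h.symm p w, one_symm p w]
    by_cases hw : w = p
    · subst hw
      rw [h.diag, Matrix.one_apply_eq]
      ring
    · rw [Matrix.one_apply_ne hw]
      rcases h.zero_one w p with h0 | h0 <;> rw [h0] <;> ring
  rw [P_apply]
  simp_rw [key, ← Finset.sum_div, Finset.sum_add_distrib, ← Finset.mul_sum,
    Finset.sum_add_distrib, ← Finset.mul_sum, sum_one_mul', W_mul_A h, W_sum h]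
  ring

theorem P_adj (h : GQMat A 4 12) {p q : V} (hpq : A p q = 1) (z : V) : P A p z q = 0 := by
  have hne := ne_of_adj h hpq
  have key : ∀ w, W A z w * b A p w * W A w q
      = (W A z w - 15 / 4 * (W A z w * A w p + 12 * ((1 : Matrix V V ℝ) w p * W A z w))
        - 5 * (W A z w * A w q + 12 * ((1 : Matrix V V ℝ) w q * W A z w))
        + 75 / 4 * (W A z w * e A p q w)) / 75 := by
    intro w
    rw [W_apply w q, b, e, h.symm w p, one_symm p w, h.symm w q, one_symm q w]
    by_cases hw : w = p
    · subst hw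
      rw [h.diag, Matrix.one_apply_eq, Matrix.one_apply_ne hne, h.symm q w, hpq]
      ring
    · rw [Matrix.one_apply_ne hw]
      by_cases hw' : w = q
      · subst hw'
        rw [h.diag, Matrix.one_apply_eq, hpq]
        ring
      · rw [Matrix.one_apply_ne hw']
        rcases h.zero_one p w with h0 | h0 <;> rcases h.zero_one q w with h0' | h0' <;>
          rw [h0, h0'] <;> ring
  rw [P_apply]
  simp_rw [key, ← Finset.sum_div, Finset.sum_add_distrib, Finset.sum_sub_distrib,
    ← Finset.mul_sum, Finset.sum_add_distrib, ← Finset.mul_sum, W_line h hpq,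
    sum_one_mul', W_mul_A h, W_sum h]
  ring

theorem P_zero_right (h : GQMat A 4 12) {p q : V} (hq : q = p ∨ A p q = 1) (z : V) :
    P A p z q = 0 := by
  rcases hq with rfl | hq
  · exact P_self h _ z
  · exact P_adj h hq z

theorem P_zero_left (h : GQMat A 4 12) {p q : V} (hq : q = p ∨ A p q = 1) (z : V) :
    P A p q z = 0 := by
  rw [P_symm h, P_zero_right h hq]

theorem g_cases (h : GQMat A 4 12) (p y : V) :
    (gf A p y = 0 ∧ (y = p ∨ A p y = 1)) ∨ (gf A p y = 1 ∧ p ≠ y ∧ A p y = 0) :=
  gf_cases h p y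

theorem diag_mul_P (h : GQMat A 4 12) (p : V) :
    Matrix.diagonal (b A p) * P A p = P A p := by
  ext y z
  rw [Matrix.diagonal_mul]
  rcases g_cases h p y with ⟨_, h0⟩ | ⟨_, h0, h1⟩
  · rw [P_zero_left h h0]; ring
  · rw [b, h1, Matrix.one_apply_ne h0]; ring

theorem W_mul_P (h : GQMat A 4 12) (p : V) : W A * P A p = P A p := by
  rw [P, ← Matrix.mul_assoc, ← Matrix.mul_assoc, W_mul_W h]

theorem P_mul_W (h : GQMat A 4 12) (p : V) : P A p * W A = P A p := by
  rw [P, Matrix.mul_assoc, W_mul_W h]

theorem P_mul_P (h : GQMat A 4 12) (p : V) : P A p * P A p = P A p := by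
  calc P A p * P A p
      = W A * (Matrix.diagonal (b A p) * (W A * P A p)) := by
        conv_lhs => arg 1; rw [P]
        simp only [Matrix.mul_assoc]
    _ = P A p := by rw [W_mul_P h, diag_mul_P h, W_mul_P h]

theorem P_entry (h : GQMat A 4 12) {p y z : V}
    (hy : p ≠ y) (hy' : A p y = 0) (hz : p ≠ z) (hz' : A p z = 0) :
    P A p y z = (48 * (1 : Matrix V V ℝ) y z - 16 * A y z + 15
      - 4 * ∑ w, A p w * (A y w * A z w)) / 240 := by
  have key : ∀ w, W A y w * b A p w * W A w z
      = W A y w * W A w z - 15 / 4 * ((1 / 25 * A p w - 1 / 5 * (A p w * A w y)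
        - 1 / 5 * (A p w * A w z) + A p w * (A y w * A z w)) / 225)
        + 105 / 16 * ((1 : Matrix V V ℝ) p w * (W A y w * W A w z)) := by
    intro w
    rw [b]
    have e : A p w * (W A y w * W A w z)
        = (1 / 25 * A p w - 1 / 5 * (A p w * A w y)
        - 1 / 5 * (A p w * A w z) + A p w * (A y w * A z w)) / 225 := by
      rcases h.zero_one p w with h0 | h0
      · rw [h0]; ring
      · have hyw : y ≠ w := by
          rintro rfl
          rw [hy'] at h0
          norm_num at h0
        have hwz : w ≠ z := by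
          rintro rfl
          rw [hz'] at h0
          norm_num at h0
        rw [W_apply, W_apply, Matrix.one_apply_ne hyw, Matrix.one_apply_ne hwz, h0,
          h.symm y w, h.symm z w]
        ring
    rw [← e]
    ring
  rw [P_apply]
  simp_rw [key, Finset.sum_add_distrib, Finset.sum_sub_distrib, ← Finset.mul_sum,
    ← Finset.sum_div, Finset.sum_add_distrib, Finset.sum_sub_distrib, ← Finset.mul_sum,
    sum_one_mul, h.sq, h.deg]
  rw [← Matrix.mul_apply, W_mul_W h, hy', hz', Matrix.one_apply_ne hy,
    Matrix.one_apply_ne hz, W_apply y p, W_apply p z, W_apply y z, h.symm y p, hy', hz',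
    Matrix.one_apply_ne hz, Matrix.one_apply_ne hy.symm]
  ring

/-- Diagonal entries. -/
theorem P_diag (h : GQMat A 4 12) (p y : V) : P A p y y = gf A p y / 16 := by
  rcases g_cases h p y with ⟨hg, h0⟩ | ⟨hg, hy, hy'⟩
  · rw [P_zero_left h h0, hg]; ring
  · rw [hg, P_entry h hy hy' hy hy']
    have e : ∑ w, A p w * (A y w * A y w) = 12 := by
      have : ∀ w, A p w * (A y w * A y w) = A p w * A w y := by
        intro w
        rw [h.symm w y]
        rcases h.zero_one y w with h0 | h0 <;> rw [h0] <;> ring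
      simp_rw [this, h.sq]
      rw [hy', Matrix.one_apply_ne hy]
      ring
    rw [e, h.diag, Matrix.one_apply_eq]
    norm_num

/-- A point outside a line is adjacent to exactly one point of the line. -/
theorem triple_edge (h : GQMat A 4 12) {p y z : V} (hy : p ≠ y) (hy' : A p y = 0) (hz : p ≠ z)
    (hz' : A p z = 0) (hyz : A y z = 1) : ∑ w, A p w * (A y w * A z w) = 1 := by
  have h3 := h.line y z hyz p
  simp_rw [mul_add, Finset.sum_add_distrib] at h3
  have h4 : ∑ w, A p w * (1 : Matrix V V ℝ) y w = A p y := by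
    simp_rw [mul_comm (A p _)]
    exact sum_one_mul y _
  have h5 : ∑ w, A p w * (1 : Matrix V V ℝ) z w = A p z := by
    simp_rw [mul_comm (A p _)]
    exact sum_one_mul z _
  rw [h4, h5, hy', hz', h.symm y p, hy', Matrix.one_apply_ne hy.symm,
    Matrix.one_apply_ne hz.symm] at h3
  linarith

/-- Entries at adjacent pairs. -/
theorem P_edge (h : GQMat A 4 12) (p : V) {y z : V}
    (hyz : A y z = 1) : P A p y z = - (gf A p y * gf A p z / 48) := by
  rcases g_cases h p y with ⟨hg, h0⟩ | ⟨hg, hy, hy'⟩
  · rw [P_zero_left h h0, hg]; ring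
  rcases g_cases h p z with ⟨hg', h0⟩ | ⟨hg', hz, hz'⟩
  · rw [P_zero_right h h0, hg']; ring
  rw [hg, hg', P_entry h hy hy' hz hz', triple_edge h hy hy' hz hz' hyz, hyz,
    Matrix.one_apply_ne (ne_of_adj h hyz)]
  norm_num

theorem P_P_P (h : GQMat A 4 12) (p x : V) :
    P A p * P A x * P A p = P A p * Matrix.diagonal (b A x) * P A p := by
  calc P A p * P A x * P A p
      = (P A p * W A) * Matrix.diagonal (b A x) * (W A * P A p) := by
        conv_lhs => arg 1; arg 2; rw [P]
        simp only [Matrix.mul_assoc]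
    _ = _ := by rw [P_mul_W h, W_mul_P h]

theorem trace_P_P (h : GQMat A 4 12) (p x : V) :
    (P A p * P A x).trace = 1 / 16 * ∑ y, gf A p y * b A x y := by
  have h1 : (P A p * P A x).trace = (P A p * Matrix.diagonal (b A x)).trace := by
    calc (P A p * P A x).trace = (P A p * (P A p * P A x)).trace := by
          rw [← Matrix.mul_assoc, P_mul_P h]
      _ = (P A p * P A x * P A p).trace := by rw [Matrix.trace_mul_comm]
      _ = (P A p * (P A p * Matrix.diagonal (b A x))).trace := by
          rw [P_P_P h, Matrix.trace_mul_comm]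
      _ = _ := by rw [← Matrix.mul_assoc, P_mul_P h]
  rw [h1, Matrix.trace, Finset.mul_sum]
  refine Finset.sum_congr rfl fun y _ => ?_
  rw [Matrix.diag_apply, Matrix.mul_diagonal, P_diag h]
  ring

theorem sum_g (h : GQMat A 4 12) (p : V) : ∑ y, gf A p y = 176 := by
  simp_rw [gf, Finset.sum_sub_distrib, sum_one, h.deg]
  simp only [Finset.sum_const, Finset.card_univ, nsmul_eq_mul]
  rw [card_eq h p]
  norm_num

theorem trace_P (h : GQMat A 4 12) (p : V) : (P A p).trace = 11 := by
  rw [Matrix.trace]
  simp_rw [Matrix.diag_apply, P_diag h, ← Finset.sum_div, sum_g h]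
  norm_num

theorem trace_adj (h : GQMat A 4 12) {p q : V} (hpq : A p q = 1) :
    (P A p * P A q).trace = 11 / 16 := by
  have key : ∀ y, gf A p y * b A q y = 1 - 15 / 4 * A q y + 105 / 16 * (1 : Matrix V V ℝ) q y
      - ((1 : Matrix V V ℝ) p y * b A q y)
      - (A p y - 15 / 4 * (A p y * A y q) + 105 / 16 * ((1 : Matrix V V ℝ) q y * A p y)) := by
    intro y
    rw [gf, b, h.symm y q]
    ring
  rw [trace_P_P h]
  simp_rw [key, Finset.sum_sub_distrib, Finset.sum_add_distrib, Finset.sum_sub_distrib,
    ← Finset.mul_sum, sum_one_mul, h.deg, h.sq, sum_one]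
  simp only [Finset.sum_const, Finset.card_univ, nsmul_eq_mul]
  rw [card_eq h q, b, h.symm q p, hpq, Matrix.one_apply_ne (ne_of_adj h hpq),
    Matrix.one_apply_ne (ne_of_adj h hpq).symm]
  norm_num

end

end Pool.Agent.H253_GQ.Eleven
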