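import Mathlib
import Pool.Agent.H253_GQ.Core11

/-!
Order `(4, 11)`, second part: for adjacent `p`, `q` the projections satisfy
`P p * P q * P p = (1/16) P p`.
-/

open Matrix Finset

namespace Pool.Agent.H253_GQ.Eleven

open Pool.Agent.H253_GQ

variable {V : Type*} [Fintype V] [DecidableEq V] {A : V → V → ℝ}

/-- The projection onto the eigenvectors vanishing on the line of an edge. -/
noncomputable def Pi (A : V → V → ℝ) (p q : V) : Matrix V V ℝ :=
  W A - (15 / 4 : ℝ) • (W A * Matrix.diagonal (e A p q) * W A)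

/-- `W D W D W = (4/15) W D W` for the diagonal matrix `D` of a line. -/
theorem WDWDW (h : GQMat A 4 12) {p q : V} (hpq : A p q = 1) :
    Matrix.diagonal (e A p q) * W A * Matrix.diagonal (e A p q) * W A
      = (4 / 15 : ℝ) • (Matrix.diagonal (e A p q) * W A) := by
  ext y z
  rw [Matrix.mul_apply, Matrix.smul_apply, Matrix.diagonal_mul, smul_eq_mul]
  simp_rw [Matrix.mul_diagonal, Matrix.diagonal_mul]
  rcases e_zero_one h hpq y with hy | hy
  · rw [hy]; simp
  · rw [hy]
    have key : ∀ w, 1 * W A y w * e A p q w * W A w z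
        = (3 * ((1 : Matrix V V ℝ) y w * (e A p q w * W A w z))
          - (e A p q w * W A w z - (1 : Matrix V V ℝ) y w * W A w z)
          + 1 / 5 * (e A p q w * W A w z)) / 15 := by
      intro w
      have h1 : A y w * e A p q w * W A w z
          = e A p q w * W A w z - (1 : Matrix V V ℝ) y w * W A w z := by
        rw [e_clique h hpq hy w]; ring
      rw [← h1, W_apply y w]
      ring
    have h2 : ∑ w, e A p q w * W A w z = 0 := by
      rw [← W_line h hpq z]
      exact Finset.sum_congr rfl fun w _ => by rw [W_symm h w z]; ring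
    simp_rw [key, ← Finset.sum_div, Finset.sum_add_distrib, Finset.sum_sub_distrib,
      ← Finset.mul_sum, sum_one_mul, h2, hy]
    ring

theorem Pi_mul_Pi (h : GQMat A 4 12) {p q : V} (hpq : A p q = 1) :
    Pi A p q * Pi A p q = Pi A p q := by
  have h1 : W A * Matrix.diagonal (e A p q) * W A * (W A * Matrix.diagonal (e A p q) * W A)
      = (4 / 15 : ℝ) • (W A * Matrix.diagonal (e A p q) * W A) := by
    calc _ = W A * (Matrix.diagonal (e A p q) * (W A * W A) * Matrix.diagonal (e A p q) * W A) := by
          simp only [Matrix.mul_assoc]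
      _ = _ := by
          rw [W_mul_W h, WDWDW h hpq, Matrix.mul_smul, Matrix.mul_assoc]
  have h2 : W A * (W A * Matrix.diagonal (e A p q) * W A)
      = W A * Matrix.diagonal (e A p q) * W A := by
    rw [← Matrix.mul_assoc, ← Matrix.mul_assoc, W_mul_W h]
  have h3 : W A * Matrix.diagonal (e A p q) * W A * W A
      = W A * Matrix.diagonal (e A p q) * W A := by
    rw [Matrix.mul_assoc _ (W A) (W A), W_mul_W h]
  rw [Pi, Matrix.sub_mul, Matrix.mul_sub, Matrix.mul_sub, Matrix.smul_mul, Matrix.mul_smul,
    Matrix.mul_smul, Matrix.smul_mul, h1, h2, h3, W_mul_W h]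
  ext y z
  simp only [Matrix.sub_apply, Matrix.smul_apply, smul_eq_mul]
  ring

theorem Pi_transpose (h : GQMat A 4 12) (p q : V) : (Pi A p q)ᵀ = Pi A p q := by
  simp [Pi, Matrix.transpose_sub, Matrix.transpose_mul, W_transpose h, Matrix.mul_assoc]

/-- The sum of the projections of the points of a line. -/
theorem sum_line_P (h : GQMat A 4 12) {p q : V} (hpq : A p q = 1) :
    ∑ w, e A p q w • P A w = (5 / 4 : ℝ) • Pi A p q := by
  have h1 : ∀ w, e A p q w • P A w
      = W A * (e A p q w • Matrix.diagonal (b A w)) * W A := by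
    intro w
    rw [P, Matrix.mul_smul, Matrix.smul_mul]
  simp_rw [h1]
  rw [← Finset.sum_mul, ← Finset.mul_sum]
  have h2 : ∑ w, e A p q w • Matrix.diagonal (b A w)
      = (5 / 4 : ℝ) • (1 : Matrix V V ℝ) - (75 / 16 : ℝ) • Matrix.diagonal (e A p q) := by
    ext y z
    rw [Matrix.sum_apply]
    simp only [Matrix.smul_apply, Matrix.sub_apply, smul_eq_mul]
    by_cases hyz : y = z
    · subst hyz
      simp only [Matrix.diagonal_apply_eq, Matrix.one_apply_eq]
      have key : ∀ w, e A p q w * b A w y = e A p q w - 15 / 4 * (A y w * e A p q w)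
          + 105 / 16 * ((1 : Matrix V V ℝ) y w * e A p q w) := by
        intro w
        rw [b, h.symm w y, one_symm w y]
        ring
      simp_rw [key, Finset.sum_add_distrib, Finset.sum_sub_distrib, ← Finset.mul_sum,
        sum_one_mul, e_sum h hpq, e_line h hpq]
      ring
    · simp [Matrix.diagonal_apply_ne _ hyz, Matrix.one_apply_ne hyz]
  rw [h2, Matrix.mul_sub, Matrix.sub_mul, Matrix.mul_smul, Matrix.mul_one, Matrix.smul_mul,
    W_mul_W h, Matrix.mul_smul, Matrix.smul_mul, Pi, smul_sub, smul_smul]
  norm_num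

/-- `Pi` fixes `P p` for `p` on the line. -/
theorem Pi_mul_P (h : GQMat A 4 12) {p q r : V} (hpq : A p q = 1) (hr : e A p q r = 1) :
    Pi A p q * P A r = P A r := by
  have h1 : Matrix.diagonal (e A p q) * P A r = 0 := by
    ext y z
    rw [Matrix.diagonal_mul, Matrix.zero_apply]
    rcases e_zero_one h hpq y with hy | hy
    · rw [hy]; ring
    · have h2 := e_clique h hpq hy r
      rw [hr] at h2
      have h3 : y = r ∨ A r y = 1 := by
        by_cases hyr : y = r
        · exact Or.inl hyr
        · right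
          rw [Matrix.one_apply_ne hyr] at h2
          rw [h.symm]
          linarith
      rw [P_zero_left h h3]; ring
  rw [Pi, Matrix.sub_mul, Matrix.smul_mul, W_mul_P h, Matrix.mul_assoc, Matrix.mul_assoc,
    W_mul_P h, h1]
  simp

theorem P_mul_Pi (h : GQMat A 4 12) {p q r : V} (hpq : A p q = 1) (hr : e A p q r = 1) :
    P A r * Pi A p q = P A r := by
  have := congrArg Matrix.transpose (Pi_mul_P h hpq hr)
  rwa [Matrix.transpose_mul, Pi_transpose h, P_transpose h] at this

/-- **Adjacent projections are isoclinic.** -/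
theorem P_iso (h : GQMat A 4 12) {p q : V} (hpq : A p q = 1) :
    P A q * P A p * P A q = (1 / 16 : ℝ) • P A q := by
  set Q := Pi A p q with hQ
  set R : Matrix V V ℝ := (4 / 5 : ℝ) • Q + (16 / 5 : ℝ) • P A p with hR
  set T : Matrix V V ℝ := (5 / 4 : ℝ) • Q - P A p with hT
  have hp : e A p q p = 1 := e_left h hpq
  have hq : e A p q q = 1 := e_right h hpq
  have hQQ : Q * Q = Q := Pi_mul_Pi h hpq
  have hQP : Q * P A p = P A p := Pi_mul_P h hpq hp
  have hPQ : P A p * Q = P A p := P_mul_Pi h hpq hp
  have hQq : Q * P A q = P A q := Pi_mul_P h hpq hq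
  have hqQ : P A q * Q = P A q := P_mul_Pi h hpq hq
  have hPP := P_mul_P h p
  have hqq := P_mul_P h q
  have hRt : Rᵀ = R := by
    rw [hR, Matrix.transpose_add, Matrix.transpose_smul, Matrix.transpose_smul, hQ,
      Pi_transpose h, P_transpose h]
  have hRTR : R * T * R = R := by
    have h1 : R * T = Q := by
      rw [hR, hT, Matrix.add_mul, Matrix.mul_sub, Matrix.mul_sub, Matrix.smul_mul,
        Matrix.smul_mul, Matrix.smul_mul, Matrix.smul_mul, Matrix.mul_smul, Matrix.mul_smul,
        hQQ, hQP, hPQ, hPP]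
      ext y z
      simp only [Matrix.add_apply, Matrix.sub_apply, Matrix.smul_apply, smul_eq_mul]
      ring
    rw [h1, hR, Matrix.mul_add, Matrix.mul_smul, Matrix.mul_smul, hQQ, hQP]
  set Y : Matrix V V ℝ := P A q * R * P A q with hY
  have hYval : Y = (4 / 5 : ℝ) • P A q + (16 / 5 : ℝ) • (P A q * P A p * P A q) := by
    rw [hY, hR, Matrix.mul_add, Matrix.add_mul, Matrix.mul_smul, Matrix.mul_smul,
      Matrix.smul_mul, Matrix.smul_mul, hqQ, hqq]
  have hYt : Yᵀ = Y := by
    rw [hY, Matrix.transpose_mul, Matrix.transpose_mul, hRt, P_transpose h, Matrix.mul_assoc]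
  have htrY : Y.trace = 11 := by
    rw [hYval, Matrix.trace_add, Matrix.trace_smul, Matrix.trace_smul, trace_P h,
      Matrix.trace_mul_comm, ← Matrix.mul_assoc, hqq, Matrix.trace_mul_comm, trace_adj h hpq]
    norm_num
  -- the decomposition of `T` over the other points of the line
  have hTsum : T = ∑ w, (e A p q w - (1 : Matrix V V ℝ) p w) • P A w := by
    simp_rw [sub_smul, Finset.sum_sub_distrib]
    rw [sum_line_P h hpq, hT]
    congr 1
    rw [Finset.sum_eq_single p]
    · rw [Matrix.one_apply_eq, one_smul]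
    · intro w _ hw
      rw [Matrix.one_apply_ne hw.symm, zero_smul]
    · intro hp'
      exact absurd (Finset.mem_univ p) hp'
  have hnn : ∀ w, 0 ≤ e A p q w - (1 : Matrix V V ℝ) p w := by
    intro w
    by_cases hw : p = w
    · subst hw
      rw [hp, Matrix.one_apply_eq]; norm_num
    · rw [Matrix.one_apply_ne hw]
      rcases e_zero_one h hpq w with h0 | h0 <;> rw [h0] <;> norm_num
  have hYsum : Y.trace = ∑ w, (e A p q w - (1 : Matrix V V ℝ) p w)
      * ((P A w * R * P A q)ᵀ * (P A w * R * P A q)).trace := by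
    have h1 : Y = ∑ w, (e A p q w - (1 : Matrix V V ℝ) p w)
        • ((P A w * R * P A q)ᵀ * (P A w * R * P A q)) := by
      calc Y = P A q * (R * T * R) * P A q := by rw [hRTR]
        _ = (P A q * R) * T * (R * P A q) := by simp only [Matrix.mul_assoc]
        _ = _ := by
          rw [hTsum, Finset.mul_sum, Finset.sum_mul]
          refine Finset.sum_congr rfl fun w _ => ?_
          rw [Matrix.mul_smul, Matrix.smul_mul, Matrix.transpose_mul, Matrix.transpose_mul,
            hRt, P_transpose h, P_transpose h]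
          congr 1
          calc P A q * R * P A w * (R * P A q)
              = P A q * R * (P A w * P A w) * (R * P A q) := by rw [P_mul_P h]
            _ = _ := by simp only [Matrix.mul_assoc]
    conv_lhs => rw [h1]
    rw [Matrix.trace_sum]
    refine Finset.sum_congr rfl fun w _ => ?_
    rw [Matrix.trace_smul, smul_eq_mul]
  have hle : (Y * Y).trace ≤ Y.trace := by
    rw [hYsum]
    have h2 : (Y * Y).trace = (e A p q q - (1 : Matrix V V ℝ) p q)
        * ((P A q * R * P A q)ᵀ * (P A q * R * P A q)).trace := by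
      rw [hq, Matrix.one_apply_ne (ne_of_adj h hpq), ← hY, hYt]
      ring
    rw [h2]
    exact Finset.single_le_sum (f := fun w => (e A p q w - (1 : Matrix V V ℝ) p w)
      * ((P A w * R * P A q)ᵀ * (P A w * R * P A q)).trace)
      (fun w _ => mul_nonneg (hnn w) (trace_transpose_mul_self_nonneg _)) (Finset.mem_univ q)
  have hPY : P A q * Y = Y := by
    rw [hY, ← Matrix.mul_assoc, ← Matrix.mul_assoc, hqq]
  have hYP : Y * P A q = Y := by
    rw [hY, Matrix.mul_assoc, hqq]
  have hfin : P A q - Y = 0 := by
    apply eq_zero_of_trace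
    have h3 : (P A q - Y)ᵀ * (P A q - Y) = P A q - Y - Y + Y * Y := by
      rw [Matrix.transpose_sub, P_transpose h, hYt, Matrix.sub_mul, Matrix.mul_sub,
        Matrix.mul_sub, hqq, hPY, hYP]
      abel
    have h4 := trace_transpose_mul_self_nonneg (P A q - Y)
    rw [h3, Matrix.trace_add, Matrix.trace_sub, Matrix.trace_sub, trace_P h, htrY] at h4 ⊢
    linarith
  have h5 : P A q = Y := sub_eq_zero.1 hfin
  rw [hYval] at h5
  ext y z
  have h6 := congrFun (congrFun h5 y) z
  simp only [Matrix.add_apply, Matrix.smul_apply, smul_eq_mul] at h6 ⊢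
  linarith

/-- The neighbours of `p` carry a quarter of every vector in the range of `P q`, `q ~ p`. -/
theorem P_D_P (h : GQMat A 4 12) {p q : V} (hpq : A p q = 1) (y z : V) :
    ∑ w, P A q y w * A p w * P A q w z = 1 / 4 * P A q y z := by
  have h1 := P_iso h hpq
  rw [P_P_P h] at h1
  have h2 := congrFun (congrFun h1 y) z
  rw [Matrix.mul_apply, Matrix.smul_apply, smul_eq_mul] at h2
  simp_rw [Matrix.mul_diagonal] at h2
  have hqp : A q p = 1 := by rw [h.symm]; exact hpq
  have key : ∀ w, P A q y w * b A p w * P A q w z = P A q y w * P A q w z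
      - 15 / 4 * (P A q y w * A p w * P A q w z)
      + 105 / 16 * ((1 : Matrix V V ℝ) p w * (P A q y w * P A q w z)) := by
    intro w
    rw [b]
    ring
  simp_rw [key, Finset.sum_add_distrib, Finset.sum_sub_distrib, ← Finset.mul_sum,
    sum_one_mul] at h2
  rw [← Matrix.mul_apply, P_mul_P h, P_zero_right h (Or.inr hqp)] at h2
  linarith

end Pool.Agent.H253_GQ.Eleven
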