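import Mathlib
import Pool.Agent.H253_GQ.Core11b

/-!
Order `(4, 11)`, third part: the integer valued eigenvector attached to a pair of
noncollinear points.
-/

open Matrix Finset

namespace Pool.Agent.H253_GQ.Eleven

open Pool.Agent.H253_GQ

variable {V : Type*} [Fintype V] [DecidableEq V] {A : V → V → ℝ}

theorem P_mul_A (h : GQMat A 4 12) (p y x : V) :
    ∑ z, P A p y z * A z x = -12 * P A p y x := by
  have e2 : ∀ z, P A p y z = ∑ w, P A p y w * W A w z := by
    intro z
    rw [← Matrix.mul_apply, P_mul_W h]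
  calc ∑ z, P A p y z * A z x = ∑ z, ∑ w, P A p y w * (W A w z * A z x) := by
        refine Finset.sum_congr rfl fun z _ => ?_
        rw [e2 z, Finset.sum_mul]
        exact Finset.sum_congr rfl fun w _ => by ring
    _ = ∑ w, P A p y w * (-12 * W A w x) := by
        rw [Finset.sum_comm]
        refine Finset.sum_congr rfl fun w _ => ?_
        rw [← Finset.mul_sum, W_mul_A h]
    _ = -12 * P A p y x := by
        rw [e2 x, Finset.mul_sum]
        exact Finset.sum_congr rfl fun w _ => by ring

theorem P_sum (h : GQMat A 4 12) (p y : V) : ∑ z, P A p y z = 0 := by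
  have e2 : ∀ z, P A p y z = ∑ w, P A p y w * W A w z := by
    intro z
    rw [← Matrix.mul_apply, P_mul_W h]
  calc ∑ z, P A p y z = ∑ z, ∑ w, P A p y w * W A w z :=
        Finset.sum_congr rfl fun z _ => e2 z
    _ = ∑ w, P A p y w * ∑ z, W A w z := by
        rw [Finset.sum_comm]
        exact Finset.sum_congr rfl fun w _ => by rw [Finset.mul_sum]
    _ = 0 := by
        refine Finset.sum_eq_zero fun w _ => ?_
        rw [W_sum h]; ring

theorem P_sq_col (h : GQMat A 4 12) (p x : V) : ∑ z, P A p z x ^ 2 = P A p x x := by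
  conv_rhs => rw [← P_mul_P h p, Matrix.mul_apply]
  exact Finset.sum_congr rfl fun z _ => by rw [P_symm h p x z]; ring

/-- The cubic identity. -/
theorem cubic (h : GQMat A 4 12) {p x : V} (hpx : p ≠ x) (hpx' : A p x = 0) (y : V) :
    ∑ z, P A p y z * P A p z x ^ 2 = 1 / 120 * P A p y x := by
  have hgx : gf A p x = 1 := by
    rw [gf, Matrix.one_apply_ne hpx, hpx']; ring
  have key : ∀ z, P A p y z * P A p z x ^ 2
      = (48 * ((1 : Matrix V V ℝ) x z * (P A p y z * P A p z x))
        + 16 / 48 * (P A p y z * A z x)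
        + 15 * (P A p y z * P A p z x)
        - 4 * ∑ w, A p w * A w x * (P A p y z * A w z * P A p z x)) / 240 := by
    intro z
    rcases g_cases h p z with ⟨_, h0⟩ | ⟨hg, hz, hz'⟩
    · rw [P_zero_right h h0 y, P_zero_left h h0 x]
      simp
    · have e1 : P A p z x = (48 * (1 : Matrix V V ℝ) z x - 16 * A z x + 15
          - 4 * ∑ w, A p w * (A z w * A x w)) / 240 := P_entry h hz hz' hpx hpx'
      have e2 : A z x * P A p z x = - (1 / 48) * A z x := by
        rcases h.zero_one z x with h0 | h0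
        · rw [h0]; ring
        · rw [P_edge h p h0, hg, hgx, h0]; ring
      have e3 : ∑ w, A p w * A w x * (P A p y z * A w z * P A p z x)
          = P A p y z * P A p z x * ∑ w, A p w * (A z w * A x w) := by
        rw [Finset.mul_sum]
        exact Finset.sum_congr rfl fun w _ => by rw [h.symm w x, h.symm w z]; ring
      rw [e3, one_symm x z]
      calc P A p y z * P A p z x ^ 2 = P A p y z * P A p z x * P A p z x := by ring
        _ = P A p y z * P A p z x * ((48 * (1 : Matrix V V ℝ) z x - 16 * A z x + 15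
          - 4 * ∑ w, A p w * (A z w * A x w)) / 240) := by rw [← e1]
        _ = (48 * ((1 : Matrix V V ℝ) z x * (P A p y z * P A p z x))
          - 16 * P A p y z * (A z x * P A p z x)
          + 15 * (P A p y z * P A p z x)
          - 4 * (P A p y z * P A p z x * ∑ w, A p w * (A z w * A x w))) / 240 := by ring
        _ = _ := by rw [e2]; ring
  have hin : ∀ w, A p w * A w x * ∑ z, P A p y z * A w z * P A p z x
      = 1 / 4 * P A p y x * (A p w * A w x) := by
    intro w
    rcases h.zero_one p w with h0 | h0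
    · rw [h0]; ring
    · have h1 : A w p = 1 := by rw [h.symm]; exact h0
      rw [P_D_P h h1]; ring
  simp_rw [key, ← Finset.sum_div, Finset.sum_sub_distrib, Finset.sum_add_distrib,
    ← Finset.mul_sum, sum_one_mul, P_mul_A h]
  rw [Finset.sum_comm]
  simp_rw [← Finset.mul_sum, hin]
  rw [← Finset.mul_sum, h.sq, ← Matrix.mul_apply, P_mul_P h, P_diag h, hgx, hpx',
    Matrix.one_apply_ne hpx]
  ring

/-- Images of squares. -/
theorem W_sq (h : GQMat A 4 12) {p x : V} (hpx : p ≠ x) (hpx' : A p x = 0) (y : V) :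
    ∑ z, W A y z * P A p z x ^ 2 = 1 / 120 * P A p y x + 1 / 256 * W A y p := by
  have hgx : gf A p x = 1 := by
    rw [gf, Matrix.one_apply_ne hpx, hpx']; ring
  set u2 : V → ℝ := fun z => P A p z x ^ 2 with hu2
  set hv : V → ℝ := fun y => ∑ z, W A y z * u2 z - 1 / 256 * W A y p with hhv
  have hWh : ∀ y, ∑ z, W A y z * hv z = hv y := by
    intro y
    simp only [hhv, mul_sub, Finset.sum_sub_distrib]
    congr 1
    · simp_rw [Finset.mul_sum]
      rw [Finset.sum_comm]
      refine Finset.sum_congr rfl fun z _ => ?_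
      simp_rw [← mul_assoc, ← Finset.sum_mul]
      rw [← Matrix.mul_apply, W_mul_W h]
    · have : ∀ z, W A y z * (1 / 256 * W A z p) = 1 / 256 * (W A y z * W A z p) := by
        intro z; ring
      simp_rw [this, ← Finset.mul_sum]
      rw [← Matrix.mul_apply, W_mul_W h]
  have hsum : ∑ z, u2 z = 1 / 16 := by
    simp only [hu2]
    rw [P_sq_col h, P_diag h, hgx]
  have hvan : ∀ q, (q = p ∨ A p q = 1) → hv q = 0 := by
    intro q hq
    have h1 : ∑ z, W A q z * u2 z = (3 * u2 q - ∑ z, A q z * u2 z + 1 / 5 * ∑ z, u2 z) / 15 := by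
      have : ∀ z, W A q z * u2 z = (3 * ((1 : Matrix V V ℝ) q z * u2 z) - A q z * u2 z
          + 1 / 5 * u2 z) / 15 := by
        intro z
        rw [W_apply]; ring
      simp_rw [this, ← Finset.sum_div, Finset.sum_add_distrib, Finset.sum_sub_distrib,
        ← Finset.mul_sum, sum_one_mul]
    have h2 : u2 q = 0 := by
      simp only [hu2]
      rw [P_zero_left h hq]; ring
    simp only [hhv]
    rw [h1, h2, hsum]
    rcases hq with rfl | hq
    · have h3 : ∑ z, A q z * u2 z = 0 := by
        apply Finset.sum_eq_zero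
        intro z _
        rcases h.zero_one q z with h0 | h0
        · rw [h0]; ring
        · simp only [hu2]
          rw [P_zero_left h (Or.inr h0)]; ring
      rw [h3, W_apply, h.diag, Matrix.one_apply_eq]
      norm_num
    · have h3 : ∑ z, A q z * u2 z = 1 / 64 := by
        have h4 : A q p = 1 := by rw [h.symm]; exact hq
        have h5 := P_D_P h h4 x x
        rw [P_diag h, hgx] at h5
        have h6 : ∑ z, A q z * u2 z = ∑ w, P A p x w * A q w * P A p w x := by
          refine Finset.sum_congr rfl fun z _ => ?_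
          simp only [hu2]
          rw [P_symm h p x z]; ring
        rw [h6, h5]
        norm_num
      rw [h3, W_apply, h.symm q p, hq, Matrix.one_apply_ne (ne_of_adj h hq).symm]
      norm_num
  have hbh : ∀ w, b A p w * hv w = hv w := by
    intro w
    rcases g_cases h p w with ⟨_, h0⟩ | ⟨_, h0, h1⟩
    · rw [hvan w h0]; ring
    · rw [b, h1, Matrix.one_apply_ne h0]; ring
  have hPh : ∑ z, P A p y z * hv z = hv y := by
    simp_rw [P_apply]
    have h1 : ∀ z, (∑ w, W A y w * b A p w * W A w z) * hv z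
        = ∑ w, W A y w * b A p w * (W A w z * hv z) := by
      intro z
      rw [Finset.sum_mul]
      exact Finset.sum_congr rfl fun w _ => by ring
    simp_rw [h1]
    rw [Finset.sum_comm]
    simp_rw [← Finset.mul_sum, hWh, mul_assoc, hbh]
    exact hWh y
  have hPh2 : ∑ z, P A p y z * hv z = 1 / 120 * P A p y x := by
    have h1 : ∀ z, P A p y z * hv z = ∑ w, P A p y z * W A z w * u2 w
        - 1 / 256 * (P A p y z * W A z p) := by
      intro z
      simp only [hhv]
      rw [mul_sub, Finset.mul_sum]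
      congr 1
      · exact Finset.sum_congr rfl fun w _ => by ring
      · ring
    simp_rw [h1, Finset.sum_sub_distrib, ← Finset.mul_sum]
    rw [Finset.sum_comm]
    simp_rw [← Finset.sum_mul, ← Matrix.mul_apply]
    rw [P_mul_W h, P_self h, ← cubic h hpx hpx' y]
    ring
  have h7 : hv y = 1 / 120 * P A p y x := by rw [← hPh, hPh2]
  simp only [hhv] at h7
  linarith

/-- The eigenvector attached to the pair `p`, `x`. -/
noncomputable def F (A : V → V → ℝ) (p x : V) : V → ℝ :=
  fun y => 60 * P A p y x + 75 / 4 * W A y p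

theorem W_F (h : GQMat A 4 12) (p x y : V) : ∑ z, W A y z * F A p x z = F A p x y := by
  unfold F
  have key : ∀ z, W A y z * (60 * P A p z x + 75 / 4 * W A z p)
      = 60 * (W A y z * P A p z x) + 75 / 4 * (W A y z * W A z p) := by
    intro z; ring
  simp_rw [key, Finset.sum_add_distrib, ← Finset.mul_sum, ← Matrix.mul_apply]
  rw [W_mul_P h, W_mul_W h]

theorem F_sq_expand (h : GQMat A 4 12) {p x : V} (hpx : p ≠ x) (hpx' : A p x = 0) (z : V) :
    F A p x z ^ 2 = 3600 * P A p z x ^ 2 + 30 * P A p z x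
      + 1 / 16 * (1 + 15 * A z p + 255 * (1 : Matrix V V ℝ) z p) := by
  unfold F
  have h1 : P A p z x * W A z p = 1 / 75 * P A p z x := by
    rcases g_cases h p z with ⟨_, h0⟩ | ⟨_, h0, h1⟩
    · rw [P_zero_left h h0]; ring
    · rw [W_apply, h.symm z p, h1, Matrix.one_apply_ne h0.symm]; ring
  have h2 : W A z p ^ 2 = (1 + 15 * A z p + 255 * (1 : Matrix V V ℝ) z p) / 5625 := by
    rw [W_apply]
    by_cases hz : z = p
    · subst hz
      rw [h.diag, Matrix.one_apply_eq]; norm_num
    · rw [Matrix.one_apply_ne hz]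
      rcases h.zero_one z p with h0 | h0 <;> rw [h0] <;> norm_num
  calc (60 * P A p z x + 75 / 4 * W A z p) ^ 2
      = 3600 * P A p z x ^ 2 + 2250 * (P A p z x * W A z p) + 5625 / 16 * W A z p ^ 2 := by ring
    _ = _ := by rw [h1, h2]; ring

theorem W_F_sq (h : GQMat A 4 12) {p x : V} (hpx : p ≠ x) (hpx' : A p x = 0) (y : V) :
    ∑ z, W A y z * F A p x z ^ 2 = F A p x y := by
  have key : ∀ z, W A y z * F A p x z ^ 2
      = 3600 * (W A y z * P A p z x ^ 2) + 30 * (W A y z * P A p z x)
        + 1 / 16 * (W A y z + 15 * (W A y z * A z p)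
          + 255 * ((1 : Matrix V V ℝ) z p * W A y z)) := by
    intro z
    rw [F_sq_expand h hpx hpx']; ring
  have h1 : ∑ z, W A y z * P A p z x = P A p y x := by
    rw [← Matrix.mul_apply, W_mul_P h]
  simp_rw [key, Finset.sum_add_distrib, ← Finset.mul_sum, Finset.sum_add_distrib,
    ← Finset.mul_sum, W_sq h hpx hpx', h1, W_sum h, W_mul_A h, sum_one_mul']
  unfold F
  ring

theorem F_norm (h : GQMat A 4 12) {p x : V} (hpx : p ≠ x) (hpx' : A p x = 0) :
    ∑ z, F A p x z ^ 2 = 300 := by
  have hgx : gf A p x = 1 := by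
    rw [gf, Matrix.one_apply_ne hpx, hpx']; ring
  have h1 : ∑ z, P A p z x = 0 := by
    rw [← P_sum h p x]
    exact Finset.sum_congr rfl fun z _ => P_symm h p z x
  have h2 : ∑ z, A z p = 4 * 12 := by
    rw [← h.deg p]
    exact Finset.sum_congr rfl fun z _ => h.symm z p
  have h3 : ∑ z, (1 : Matrix V V ℝ) z p = 1 := by
    simp [Matrix.one_apply]
  simp_rw [F_sq_expand h hpx hpx', Finset.sum_add_distrib, ← Finset.mul_sum,
    Finset.sum_add_distrib, ← Finset.mul_sum, P_sq_col h, h1, h2, h3, P_diag h, hgx]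
  simp only [Finset.sum_const, Finset.card_univ, nsmul_eq_mul]
  rw [card_eq h p]
  norm_num

theorem F_nbr_sq (h : GQMat A 4 12) {p x : V} (hpx : p ≠ x) (hpx' : A p x = 0) (y : V) :
    ∑ z, A y z * F A p x z ^ 2 = 3 * F A p x y ^ 2 - 15 * F A p x y + 60 := by
  have h1 := W_F_sq h hpx hpx' y
  have key : ∀ z, W A y z * F A p x z ^ 2
      = (3 * ((1 : Matrix V V ℝ) y z * F A p x z ^ 2) - A y z * F A p x z ^ 2
        + 1 / 5 * F A p x z ^ 2) / 15 := by
    intro z
    rw [W_apply]; ring
  simp_rw [key, ← Finset.sum_div, Finset.sum_add_distrib, Finset.sum_sub_distrib,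
    ← Finset.mul_sum, sum_one_mul, F_norm h hpx hpx'] at h1
  linarith

theorem F_line (h : GQMat A 4 12) (p x : V) {q r : V} (hqr : A q r = 1) :
    ∑ w, e A q r w * F A p x w = 0 := by
  have h1 : ∀ w, e A q r w * F A p x w = ∑ z, F A p x z * (W A z w * e A q r w) := by
    intro w
    rw [← W_F h p x w, Finset.mul_sum]
    exact Finset.sum_congr rfl fun z _ => by rw [W_symm h w z]; ring
  simp_rw [h1]
  rw [Finset.sum_comm]
  simp_rw [← Finset.mul_sum, W_line h hqr]
  simp

/-- The lower bound: `16 + 12 f - f^2 ≥ 0`. -/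
theorem F_lower (h : GQMat A 4 12) {p x : V} (hpx : p ≠ x) (hpx' : A p x = 0) (y : V) :
    0 ≤ 16 + 12 * F A p x y - F A p x y ^ 2 := by
  set f : V → ℝ := F A p x with hf
  -- `Σ b_y f^2 = |P_y f|^2`
  have h1 : ∑ z, b A y z * f z ^ 2 = ∑ z, (∑ w, P A y z w * f w) ^ 2 := by
    have h2 : ∑ z, f z * ∑ w, P A y z w * f w = ∑ z, b A y z * f z ^ 2 := by
      have h3 : ∀ z, ∑ w, P A y z w * f w = ∑ v, W A z v * (b A y v * f v) := by
        intro z
        simp_rw [P_apply, Finset.sum_mul]
        rw [Finset.sum_comm]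
        refine Finset.sum_congr rfl fun v _ => ?_
        have h4 : ∑ w, W A v w * f w = f v := W_F h p x v
        calc ∑ w, W A z v * b A y v * W A v w * f w
            = W A z v * (b A y v * ∑ w, W A v w * f w) := by
              rw [Finset.mul_sum, Finset.mul_sum]
              exact Finset.sum_congr rfl fun w _ => by ring
          _ = W A z v * (b A y v * f v) := by rw [h4]
      simp_rw [h3, Finset.mul_sum]
      rw [Finset.sum_comm]
      refine Finset.sum_congr rfl fun v _ => ?_
      have h4 : ∑ z, W A v z * f z = f v := W_F h p x v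
      calc ∑ z, f z * (W A z v * (b A y v * f v))
          = (b A y v * f v) * ∑ z, W A v z * f z := by
            rw [Finset.mul_sum]
            exact Finset.sum_congr rfl fun z _ => by rw [W_symm h z v]; ring
        _ = b A y v * f v ^ 2 := by rw [h4]; ring
    have h5 : ∑ z, (∑ w, P A y z w * f w) ^ 2 = ∑ z, f z * ∑ w, P A y z w * f w := by
      have h6 : ∀ z, (∑ w, P A y z w * f w) ^ 2
          = ∑ w, f w * (P A y w z * ∑ v, P A y z v * f v) := by
        intro z
        rw [sq]
        conv_lhs => rw [Finset.sum_mul]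
        exact Finset.sum_congr rfl fun w _ => by rw [P_symm h y z w]; ring
      simp_rw [h6]
      rw [Finset.sum_comm]
      refine Finset.sum_congr rfl fun w _ => ?_
      rw [← Finset.mul_sum]
      congr 1
      simp_rw [Finset.mul_sum, ← mul_assoc]
      rw [Finset.sum_comm]
      simp_rw [← Finset.sum_mul, ← Matrix.mul_apply]
      rw [P_mul_P h]
    rw [h5, h2]
  have h2 : 0 ≤ ∑ z, b A y z * f z ^ 2 := by
    rw [h1]
    exact Finset.sum_nonneg fun z _ => sq_nonneg _
  have key : ∀ z, b A y z * f z ^ 2 = f z ^ 2 - 15 / 4 * (A y z * f z ^ 2)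
      + 105 / 16 * ((1 : Matrix V V ℝ) y z * f z ^ 2) := by
    intro z
    rw [b]; ring
  simp_rw [key, Finset.sum_add_distrib, Finset.sum_sub_distrib, ← Finset.mul_sum,
    sum_one_mul] at h2
  rw [hf, F_norm h hpx hpx', F_nbr_sq h hpx hpx'] at h2
  rw [hf]
  linarith

theorem F_self (h : GQMat A 4 12) (p x : V) : F A p x p = 4 := by
  rw [F, P_zero_left h (Or.inl rfl), W_apply, h.diag, Matrix.one_apply_eq]
  norm_num

/-- The values of `F` are integers. -/
theorem F_int (h : GQMat A 4 12) {p x : V} (hpx : p ≠ x) (hpx' : A p x = 0) (y : V) :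
    ∃ k : ℤ, F A p x y = k := by
  classical
  have hA : ∀ x y, ∃ k : ℤ, A x y = k := by
    intro x y
    rcases h.zero_one x y with h0 | h0
    · exact ⟨0, by rw [h0]; norm_num⟩
    · exact ⟨1, by rw [h0]; norm_num⟩
  choose a ha using hA
  rcases g_cases h p y with ⟨_, h0⟩ | ⟨_, hy, hy'⟩
  · rw [F, P_zero_left h h0]
    rcases h0 with rfl | h0
    · exact ⟨4, by rw [W_apply, h.diag, Matrix.one_apply_eq]; norm_num⟩
    · exact ⟨-1, by
        rw [W_apply, h.symm, h0, Matrix.one_apply_ne (ne_of_adj h h0).symm]; norm_num⟩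
  · refine ⟨12 * (if y = x then 1 else 0) + 4 - 4 * a y x - ∑ w, a p w * (a y w * a x w), ?_⟩
    rw [F, P_entry h hy hy' hpx hpx', W_apply, h.symm y p, hy', Matrix.one_apply_ne hy.symm]
    push_cast
    simp_rw [← ha]
    rw [Matrix.one_apply]
    ring

/-- Summary of the properties of `F`. -/
theorem exists_F (h : GQMat A 4 12) (p : V) : ∃ f : V → ℝ,
    (∀ y, ∃ k : ℤ, f y = k) ∧ f p = 4 ∧ (∀ y, -1 ≤ f y) ∧
    (∀ y, ∑ z, A y z * f z ^ 2 = 3 * f y ^ 2 - 15 * f y + 60) ∧
    (∀ y, ∑ z, A y z * f z = -12 * f y) ∧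
    (∀ q r, A q r = 1 → ∑ w, e A q r w * f w = 0) := by
  have hex : ∃ x, gf A p x ≠ 0 := by
    by_contra hcon
    push Not at hcon
    have h1 := sum_g h p
    simp_rw [hcon] at h1
    simp only [Finset.sum_const_zero] at h1
    norm_num at h1
  obtain ⟨x, hx⟩ := hex
  rcases g_cases h p x with ⟨hg, _⟩ | ⟨_, hpx, hpx'⟩
  · exact absurd hg hx
  refine ⟨F A p x, F_int h hpx hpx', F_self h p x, ?_, F_nbr_sq h hpx hpx', ?_,
    fun q r hqr => F_line h p x hqr⟩
  · intro y
    have h1 := F_lower h hpx hpx' y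
    obtain ⟨k, hk⟩ := F_int h hpx hpx' y
    rw [hk] at h1 ⊢
    have h2 : (0 : ℤ) ≤ 16 + 12 * k - k ^ 2 := by exact_mod_cast h1
    have h3 : -1 ≤ k := by
      by_contra hcon
      push Not at hcon
      nlinarith
    exact_mod_cast h3
  · intro y
    have h1 : ∀ z, A y z * F A p x z = ∑ w, F A p x w * (W A w z * A z y) := by
      intro z
      rw [← W_F h p x z, Finset.mul_sum]
      exact Finset.sum_congr rfl fun w _ => by rw [W_symm h z w, h.symm y z]; ring
    simp_rw [h1]
    rw [Finset.sum_comm]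
    simp_rw [← Finset.mul_sum, W_mul_A h]
    rw [← W_F h p x y, Finset.mul_sum]
    exact Finset.sum_congr rfl fun w _ => by rw [W_symm h y w]; ring

end Pool.Agent.H253_GQ.Eleven
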